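import Pool.Agent.Lib.MP_a3a416_nt.LJ.Defs

/-!
# HJ-Defs
Theorem H (Hamming distance of the last Bernoulli numbers from a subspace mod `p`): the functions `(X - X^p)^a E^[m]`, `a < A`, `m < S`
(jet `t^a E^[m](n+t)` at every `n`).  `c a` are the coefficients of `P_{a,m}`, `m < S`; everything per `a` is the chain LJ.
-/

namespace MP_a3a416_nt.HJ

open Polynomial MP_a3a416_nt.BB MP_a3a416_nt.LJ

/-- `r_n(t)` times `FN`. -/
noncomputable def rH (A S N : ℕ) (c : ℕ → ℕ × ℕ × ℕ → ℤ) (n : ℕ) : ℤ[X] :=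
  ∑ a ∈ Finset.range A, X ^ a * rJ S N (c a) n

/-- `∑_{a,m} P_{a,m}(n+t) t^a φ_w^[m](t)` times `FN`. -/
noncomputable def sH (A S N J : ℕ) (c : ℕ → ℕ × ℕ × ℕ → ℤ) (w : ℕ → ℤ) (n : ℕ) : ℤ[X] :=
  ∑ a ∈ Finset.range A, X ^ a * sJ S N J (c a) w n

/-- size of the jets of order `< T`. -/
def EH (A S N T : ℕ) : ℕ := DJ N (T + S + 1) * (A * (S * T * (4 * N ^ 2) * 2 ^ N * 4 ^ (T + S)))

/-- number of jets used: `5 M + A`, `M = A S + A + 1` the dimension in the zero estimate. -/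
def TH (A S : ℕ) : ℕ := 5 * (A * S + A + 1) + A

/-- the exceptional indices: `1 ≤ g ≤ J`, `B_{p-1-2g} ≢ (comb r v lam) g` mod `p`. -/
def exc (J r : ℕ) (v : ℕ → ℕ → ℤ) (lam : ℕ → ℤ) (p : ℕ) : Finset ℕ :=
  (Finset.Icc 1 J).filter (fun g =>
    ¬ (p : ℤ) ∣ (_root_.bernoulli (p - 1 - 2 * g) - ((LI.comb r v lam g : ℤ) : ℚ)).num)

/-- `(B_{p-1-2g})_{g ≤ J}` is within Hamming distance `k` of the affine space `v 0 + ⟨v 1, …, v r⟩` modulo `p`. -/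
def BadH (J r k : ℕ) (v : ℕ → ℕ → ℤ) (lam : ℕ → ℤ) (p : ℕ) : Prop := (exc J r v lam p).card ≤ k

end MP_a3a416_nt.HJ
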