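import Pool.Agent.Lib.MP_a3a416_nt.LJ.Jets
import Pool.Agent.Lib.MP_a3a416_nt.HJ.Defs

/-!
# HJ-Jets
Jets modulo `p`.  PROOF.  `LJ.jets_modp` without its hypothesis `hM`: with `M_a := ∑_m P_{a,m} hasseDeriv m E`,
`(rJ - sJ)(c a) = taylor n M_a - ∑_m taylor n P_{a,m} hasseDeriv m (E + φ)` modulo `X^p`.  Multiply by `X^a` and sum: `∑_a (X - X^p)^a M_a = 0` shifted by `n` (`(X+n) - (X+n)^p = X - X^p`) gives
`∑_a X^a taylor n M_a ≡ 0` mod `X^p`.  `E + φ ≡ ∑_{g ∈ G} u_g X^(2g)` modulo `X^(2J+3)` [even coefficients `2g`, `g ≤ J`, `g ∉ G` and odd ones vanish], `hasseDeriv m X^(2g) = C(2g,m) X^(2g-m)`, so the rest is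
`∑_g u_g ∑_{a,m} X^(a+2g-m) C(2g,m) taylor n P_{a,m} = 0` by the hypothesis `hkill` (`a + (S-1-m) = δ`; multiply by `X^(S-1)`).
-/

namespace MP_a3a416_nt.HJ

open Polynomial MP_a3a416_nt.BB MP_a3a416_nt.LJ

private theorem taylor_hasse {R : Type} [CommRing R] (r : R) (m : ℕ) (P : R[X]) :
    taylor r (hasseDeriv m P) = hasseDeriv m (taylor r P) := by
  ext k
  have h := congrArg (fun L : R[X] →ₗ[R] R[X] => L P) (hasseDeriv_comp (R := R) k m)
  simp only [LinearMap.comp_apply, LinearMap.smul_apply] at h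
  rw [taylor_coeff, hasseDeriv_coeff, taylor_coeff, h, eval_smul, nsmul_eq_mul]
  congr 2
  rw [Nat.choose_symm_add]

private theorem map_hasse {R S : Type} [CommRing R] [CommRing S] (f : R →+* S) (m : ℕ) (P : R[X]) :
    (hasseDeriv m P).map f = hasseDeriv m (P.map f) := by
  ext k
  rw [coeff_map, hasseDeriv_coeff, hasseDeriv_coeff, map_mul, map_natCast, coeff_map]

private theorem choose_mod (p : ℕ) [hp : Fact p.Prime] (m : ℕ) (hm : m + 2 ≤ p) :
    (((p - 2).choose m : ℕ) : ZMod p) = (-1) ^ m * ((m : ZMod p) + 1) := by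
  induction m with
  | zero => simp
  | succ m ih =>
    have h1 := ih (by omega)
    have h2 := Nat.choose_succ_right_eq (p - 2) m
    have h3 : (((p - 2).choose (m + 1) : ℕ) : ZMod p) * ((m : ZMod p) + 1) =
        (((p - 2).choose m : ℕ) : ZMod p) * (-((m : ZMod p) + 2)) := by
      have h4 := congrArg (fun n : ℕ => (n : ZMod p)) h2
      simp only [Nat.cast_mul, Nat.cast_add, Nat.cast_one] at h4
      rw [h4]
      congr 1
      have h5 : ((p - 2 - m : ℕ) : ZMod p) + ((m : ZMod p) + 2) = 0 := by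
        have h6 : (p - 2 - m) + (m + 2) = p := by omega
        have h7 := congrArg (fun n : ℕ => (n : ZMod p)) h6
        simp only [Nat.cast_add, Nat.cast_ofNat, ZMod.natCast_self] at h7
        exact h7
      exact eq_neg_of_add_eq_zero_left h5
    have hne : ((m : ZMod p) + 1) ≠ 0 := by
      have h8 : ((m + 1 : ℕ) : ZMod p) ≠ 0 := by
        rw [Ne, ZMod.natCast_eq_zero_iff]
        intro hd
        have := Nat.le_of_dvd (by omega) hd
        omega
      simpa using h8
    apply mul_right_cancel₀ hne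
    rw [h3, h1]
    push_cast
    ring

private theorem hasse_lin_pow (p : ℕ) [hp : Fact p.Prime] (m : ℕ) (hm : m + 2 ≤ p) (y : ZMod p) :
    hasseDeriv m ((X + C y : (ZMod p)[X]) ^ (p - 2)) =
      C ((-1) ^ m * ((m : ZMod p) + 1)) * (X + C y) ^ (p - 2 - m) := by
  rw [← taylor_X_pow, ← taylor_hasse]
  have h : hasseDeriv m (X ^ (p - 2) : (ZMod p)[X]) =
      C ((-1) ^ m * ((m : ZMod p) + 1)) * X ^ (p - 2 - m) := by
    rw [X_pow_eq_monomial, hasseDeriv_monomial, mul_one, choose_mod p m hm,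
      ← C_mul_X_pow_eq_monomial]
  rw [h, taylor_mul, taylor_C, taylor_X_pow]

private theorem phiJ_coeff (J : ℕ) (w : ℕ → ℤ) (j : ℕ) :
    (phiJ J w).coeff j = ∑ g ∈ Finset.Icc 1 J, if j = 2 * g then w g else 0 := by
  unfold phiJ
  rw [finsetSum_coeff]
  apply Finset.sum_congr rfl
  intro g _
  rw [coeff_C_mul_X_pow]


/-- the relation at `n` for one family of coefficients. -/
theorem jet_one (p : ℕ) [Fact p.Prime] (S N J : ℕ) (c : ℕ × ℕ × ℕ → ℤ) (w : ℕ → ℤ)
    (hNp : N < p) (hSp : S + 2 ≤ p) (E : (ZMod p)[X])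
    (hE : E.comp (X + 1) - E = (X + 1) ^ (p - 2)) (hreg : REG S N c) {n : ℕ} (hn : n < N) :
    (rJ S N c n - sJ S N J c w n).map (Int.castRingHom (ZMod p)) =
      taylor (n : ZMod p) (∑ m ∈ Finset.range S,
        (PJ N c m).map (Int.castRingHom (ZMod p)) * hasseDeriv m E) -
      (∑ m ∈ Finset.range S, taylor (n : ZMod p) ((PJ N c m).map (Int.castRingHom (ZMod p))) *
        hasseDeriv m (E + (phiJ J w).map (Int.castRingHom (ZMod p)))) -
      X ^ p * ∑ a ∈ Finset.range n,
        taylor (n : ZMod p) ((QJ S N c a).map (Int.castRingHom (ZMod p))) := by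
  classical
  set f := Int.castRingHom (ZMod p) with hf
  set P : ℕ → (ZMod p)[X] := fun m => taylor (n : ZMod p) ((PJ N c m).map f) with hP
  set Q : ℕ → (ZMod p)[X] := fun a => taylor (n : ZMod p) ((QJ S N c a).map f) with hQ
  have hfn : ∀ z : ℕ, f (z : ℤ) = (z : ZMod p) := fun z => by simp [hf]
  -- the pole part
  have hpole : ∀ a ∈ Finset.range n, ∑ m ∈ Finset.range S,
      P m * hasseDeriv m ((X + C ((n - a : ℕ) : ZMod p)) ^ (p - 2)) =
        (X ^ p + C ((n - a : ℕ) : ZMod p)) * Q a := by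
    intro a ha
    rw [Finset.mem_range] at ha
    set y : ZMod p := ((n - a : ℕ) : ZMod p) with hy
    have h1 := QJ_mul c hreg (show a < N by omega)
    have h2 := congrArg (fun R : ℤ[X] => taylor (n : ZMod p) (R.map f)) h1
    simp only [Polynomial.map_mul, Polynomial.map_pow, Polynomial.map_sub, map_X, map_C,
      Polynomial.map_sum, taylor_mul, taylor_pow, map_sub, taylor_X, taylor_C, map_sum] at h2
    have h3 : (X + C (n : ZMod p) - C (f (a : ℤ)) : (ZMod p)[X]) = X + C y := by
      rw [hfn, hy, Nat.cast_sub ha.le, C_sub]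
      ring
    rw [h3] at h2
    have hne : ((X + C y : (ZMod p)[X]) ^ (S + 1)) ≠ 0 := pow_ne_zero _ (X_add_C_ne_zero y)
    apply mul_left_cancel₀ hne
    have h4 : (X ^ p + C y : (ZMod p)[X]) = (X + C y) ^ p := by
      have h5 := lin_pow_p (p := p) y 1
      rw [C_1, one_mul, one_mul] at h5
      exact h5.symm
    rw [h4, mul_left_comm, h2, Finset.mul_sum, Finset.mul_sum]
    apply Finset.sum_congr rfl
    intro m hm
    rw [Finset.mem_range] at hm
    rw [hasse_lin_pow p m (by omega)]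
    have h6 : f ((-1) ^ m * ((m : ℤ) + 1)) = (-1) ^ m * ((m : ZMod p) + 1) := by
      simp [hf]
    rw [h6]
    have h7 : (X + C y : (ZMod p)[X]) ^ (S + 1) * (X + C y) ^ (p - 2 - m) =
        (X + C y) ^ p * (X + C y) ^ (S - 1 - m) := by
      rw [← pow_add, ← pow_add]
      congr 1
      omega
    calc (X + C y : (ZMod p)[X]) ^ (S + 1) *
          (P m * (C ((-1) ^ m * ((m : ZMod p) + 1)) * (X + C y) ^ (p - 2 - m)))
        = P m * C ((-1) ^ m * ((m : ZMod p) + 1)) *
          ((X + C y) ^ (S + 1) * (X + C y) ^ (p - 2 - m)) := by ring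
      _ = _ := by rw [h7]; ring
  have hEn : taylor (n : ZMod p) E =
      E + ∑ b ∈ Finset.Icc 1 n, (X + C (b : ZMod p)) ^ (p - 2) := by
    rw [taylor_apply]
    exact E_comp_nat E hE n
  have hreindex : ∑ b ∈ Finset.Icc 1 n, (X + C (b : ZMod p) : (ZMod p)[X]) ^ (p - 2) =
      ∑ a ∈ Finset.range n, (X + C ((n - a : ℕ) : ZMod p)) ^ (p - 2) := by
    refine Finset.sum_bij' (fun b _ => n - b) (fun a _ => n - a) ?_ ?_ ?_ ?_ ?_
    · intro b hb
      rw [Finset.mem_Icc] at hb
      rw [Finset.mem_range]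
      omega
    · intro a ha
      rw [Finset.mem_range] at ha
      rw [Finset.mem_Icc]
      omega
    · intro b hb
      rw [Finset.mem_Icc] at hb
      omega
    · intro a ha
      rw [Finset.mem_range] at ha
      omega
    · intro b hb
      rw [Finset.mem_Icc] at hb
      have : n - (n - b) = b := by omega
      rw [this]
  have hrel : taylor (n : ZMod p) (∑ m ∈ Finset.range S, (PJ N c m).map f * hasseDeriv m E) =
      ∑ m ∈ Finset.range S, P m * hasseDeriv m E +
      ∑ a ∈ Finset.range n, (X ^ p + C ((n - a : ℕ) : ZMod p)) * Q a := by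
    simp only [map_sum, taylor_mul, taylor_hasse]
    rw [hEn, hreindex]
    simp only [map_add, mul_add, Finset.sum_add_distrib, map_sum, Finset.mul_sum]
    rw [Finset.sum_comm (s := Finset.range S) (t := Finset.range n)]
    rw [← Finset.sum_congr rfl hpole]
  set φ : (ZMod p)[X] := (phiJ J w).map f with hφ
  have hr : (rJ S N c n).map f = ∑ a ∈ Finset.range n, C ((n - a : ℕ) : ZMod p) * Q a := by
    unfold rJ
    rw [Polynomial.map_sum]
    apply Finset.sum_congr rfl
    intro a ha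
    rw [Finset.mem_range] at ha
    rw [Polynomial.map_mul, map_C, hQ]
    dsimp only
    rw [Polynomial.map_taylor, hfn]
    congr 2
    rw [← Nat.cast_sub ha.le, hfn]
  have hs : (sJ S N J c w n).map f = ∑ m ∈ Finset.range S, P m * hasseDeriv m φ := by
    unfold sJ
    rw [Polynomial.map_sum]
    apply Finset.sum_congr rfl
    intro m _
    rw [Polynomial.map_mul, map_hasse, hP]
    dsimp only
    rw [Polynomial.map_taylor, hfn]
  rw [Polynomial.map_sub, hr, hs, hrel]
  simp only [map_add, mul_add, Finset.sum_add_distrib]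
  have h1 : ∑ a ∈ Finset.range n, (X ^ p + C ((n - a : ℕ) : ZMod p)) * Q a =
      X ^ p * ∑ a ∈ Finset.range n, Q a +
        ∑ a ∈ Finset.range n, C ((n - a : ℕ) : ZMod p) * Q a := by
    rw [Finset.mul_sum, ← Finset.sum_add_distrib]
    apply Finset.sum_congr rfl
    intro a _
    ring
  rw [h1]
  ring

/-- the exceptional monomial `X^(2g)` is killed. -/
private theorem kill_mono (p : ℕ) [Fact p.Prime] (A S g : ℕ) (R : ℕ → ℕ → (ZMod p)[X]) (u : ZMod p)
    (hS : 1 ≤ S)
    (hkill : ∀ δ < A + S, ∑ a ∈ Finset.range A, ∑ m ∈ Finset.range S,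
      (if a + (S - 1 - m) = δ then C (((2 * g).choose m : ℕ) : ZMod p) * R a m else 0) = 0) :
    ∑ a ∈ Finset.range A, X ^ a * ∑ m ∈ Finset.range S, R a m * hasseDeriv m (C u * X ^ (2 * g)) = 0 := by
  have hX : (X : (ZMod p)[X]) ^ (S - 1) ≠ 0 := pow_ne_zero _ X_ne_zero
  apply (mul_eq_zero.1 ?_).resolve_left hX
  have h1 : ∀ a ∈ Finset.range A, ∀ m ∈ Finset.range S,
      X ^ (S - 1) * (X ^ a * (R a m * hasseDeriv m (C u * X ^ (2 * g)))) =
      C u * X ^ (2 * g) * (X ^ (a + (S - 1 - m)) * (C (((2 * g).choose m : ℕ) : ZMod p) * R a m)) := by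
    intro a _ m hm
    rw [Finset.mem_range] at hm
    rcases Nat.lt_or_ge (2 * g) m with hgm | hgm
    · have h2 : hasseDeriv m (C u * X ^ (2 * g) : (ZMod p)[X]) = 0 := by
        rw [C_mul_X_pow_eq_monomial, hasseDeriv_monomial, Nat.choose_eq_zero_of_lt hgm]
        simp
      rw [h2, Nat.choose_eq_zero_of_lt hgm]
      simp
    · have h2 : hasseDeriv m (C u * X ^ (2 * g) : (ZMod p)[X]) =
          C (((2 * g).choose m : ℕ) : ZMod p) * C u * X ^ (2 * g - m) := by
        rw [C_mul_X_pow_eq_monomial, hasseDeriv_monomial, ← C_mul_X_pow_eq_monomial, C_mul]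
      have h3 : (X : (ZMod p)[X]) ^ (S - 1) * X ^ a * X ^ (2 * g - m) =
          X ^ (2 * g) * X ^ (a + (S - 1 - m)) := by
        rw [← pow_add, ← pow_add, ← pow_add]
        congr 1
        omega
      rw [h2]
      linear_combination (R a m * C (((2 * g).choose m : ℕ) : ZMod p) * C u) * h3
  have h4 : X ^ (S - 1) * ∑ a ∈ Finset.range A, X ^ a * ∑ m ∈ Finset.range S,
      R a m * hasseDeriv m (C u * X ^ (2 * g)) =
      C u * X ^ (2 * g) * ∑ δ ∈ Finset.range (A + S), X ^ δ * ∑ a ∈ Finset.range A,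
        ∑ m ∈ Finset.range S,
        (if a + (S - 1 - m) = δ then C (((2 * g).choose m : ℕ) : ZMod p) * R a m else 0) := by
    have h5 : ∑ δ ∈ Finset.range (A + S), (X : (ZMod p)[X]) ^ δ * ∑ a ∈ Finset.range A,
        ∑ m ∈ Finset.range S,
        (if a + (S - 1 - m) = δ then C (((2 * g).choose m : ℕ) : ZMod p) * R a m else 0) =
        ∑ a ∈ Finset.range A, ∑ m ∈ Finset.range S,
          X ^ (a + (S - 1 - m)) * (C (((2 * g).choose m : ℕ) : ZMod p) * R a m) := by
      simp only [Finset.mul_sum]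
      rw [Finset.sum_comm]
      refine Finset.sum_congr rfl fun a ha => ?_
      rw [Finset.sum_comm]
      refine Finset.sum_congr rfl fun m hm => ?_
      rw [Finset.mem_range] at ha hm
      rw [Finset.sum_eq_single (a + (S - 1 - m))]
      · rw [if_pos rfl]
      · intro δ _ hδ
        rw [if_neg (Ne.symm hδ), mul_zero]
      · intro h
        exact absurd (Finset.mem_range.2 (by omega)) h
    rw [h5]
    simp only [Finset.mul_sum]
    exact Finset.sum_congr rfl fun a ha => Finset.sum_congr rfl fun m hm => h1 a ha m hm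
  rw [h4]
  rw [Finset.sum_eq_zero, mul_zero]
  intro δ hδ
  rw [hkill δ (Finset.mem_range.1 hδ), mul_zero]

theorem jets_modp (p : ℕ) [Fact p.Prime] (A S N J T : ℕ) (c : ℕ → ℕ × ℕ × ℕ → ℤ) (w : ℕ → ℤ) (G : Finset ℕ)
    (hS : 1 ≤ S) (hNp : N < p) (hSp : S + 2 ≤ p) (hTp : T ≤ p) (hpJ : 2 * J + 5 ≤ p) (hJ : T + S ≤ 2 * J + 3)
    (E : (ZMod p)[X]) (h0 : E.coeff 0 = 0)
    (hE : E.comp (X + 1) - E = (X + 1) ^ (p - 2))
    (hodd : ∀ k, Odd k → k + 4 ≤ p → E.coeff k = 0)
    (heven : ∀ g ∈ Finset.Icc 1 J, g ∉ G → E.coeff (2 * g) = -(w g : ZMod p))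
    (hreg : ∀ a < A, REG S N (c a))
    (hM : ∑ a ∈ Finset.range A, (X - X ^ p) ^ a * ∑ m ∈ Finset.range S,
      (PJ N (c a) m).map (Int.castRingHom (ZMod p)) * hasseDeriv m E = 0)
    (hkill : ∀ g ∈ G, g ∈ Finset.Icc 1 J → ∀ δ < A + S, ∑ a ∈ Finset.range A, ∑ m ∈ Finset.range S,
      (if a + (S - 1 - m) = δ then C (((2 * g).choose m : ℕ) : ZMod p) *
        (PJ N (c a) m).map (Int.castRingHom (ZMod p)) else 0) = 0)
    {n k : ℕ} (hn : n < N) (hk : k < T) :
    (p : ℤ) ∣ (rH A S N c n - sH A S N J c w n).coeff k := by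
  classical
  set f := Int.castRingHom (ZMod p) with hf
  suffices hX : (X : (ZMod p)[X]) ^ T ∣ (rH A S N c n - sH A S N J c w n).map f by
    rw [X_pow_dvd_iff] at hX
    have := hX k hk
    rw [coeff_map, hf, eq_intCast, ZMod.intCast_zmod_eq_zero_iff_dvd] at this
    exact this
  set φ : (ZMod p)[X] := (phiJ J w).map f with hφ
  set M : ℕ → (ZMod p)[X] := fun a => ∑ m ∈ Finset.range S, (PJ N (c a) m).map f * hasseDeriv m E
    with hMdef
  set Q : ℕ → (ZMod p)[X] := fun a => ∑ b ∈ Finset.range n,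
    taylor (n : ZMod p) ((QJ S N (c a) b).map f) with hQ
  set R : ℕ → ℕ → (ZMod p)[X] := fun a m => taylor (n : ZMod p) ((PJ N (c a) m).map f) with hR
  -- the whole thing
  have hsum : (rH A S N c n - sH A S N J c w n).map f =
      ∑ a ∈ Finset.range A, X ^ a * taylor (n : ZMod p) (M a) -
      (∑ a ∈ Finset.range A, X ^ a * ∑ m ∈ Finset.range S, R a m * hasseDeriv m (E + φ)) -
      X ^ p * ∑ a ∈ Finset.range A, X ^ a * Q a := by
    unfold rH sH
    rw [← Finset.sum_sub_distrib, Polynomial.map_sum, Finset.mul_sum, ← Finset.sum_sub_distrib,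
      ← Finset.sum_sub_distrib]
    refine Finset.sum_congr rfl fun a ha => ?_
    rw [← mul_sub, Polynomial.map_mul, Polynomial.map_pow, map_X,
      jet_one p S N J (c a) w hNp hSp E hE (hreg a (Finset.mem_range.1 ha)) hn]
    simp only [hMdef, hR, hQ, hφ, hf]
    ring
  -- first part
  have hshift : taylor (n : ZMod p) (X - X ^ p : (ZMod p)[X]) = X - X ^ p := by
    rw [map_sub, taylor_pow, taylor_X]
    have h5 := lin_pow_p (p := p) (n : ZMod p) 1
    rw [C_1, one_mul, one_mul] at h5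
    rw [h5]
    ring
  have h1 : (X : (ZMod p)[X]) ^ p ∣ ∑ a ∈ Finset.range A, X ^ a * taylor (n : ZMod p) (M a) := by
    have h2 : ∑ a ∈ Finset.range A, (X - X ^ p) ^ a * taylor (n : ZMod p) (M a) = 0 := by
      have h3 := congrArg (fun R : (ZMod p)[X] => taylor (n : ZMod p) R) hM
      simp only [map_sum, taylor_mul, taylor_pow, hshift, map_zero] at h3
      rw [← h3]
      refine Finset.sum_congr rfl fun a _ => ?_
      simp only [hMdef, map_sum, taylor_mul]
    rw [← sub_zero (∑ a ∈ Finset.range A, X ^ a * taylor (n : ZMod p) (M a)), ← h2,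
      ← Finset.sum_sub_distrib]
    refine Finset.dvd_sum fun a _ => ?_
    rw [← sub_mul]
    refine Dvd.dvd.mul_right ?_ _
    have h4 := sub_dvd_pow_sub_pow (X : (ZMod p)[X]) (X - X ^ p) a
    rwa [sub_sub_cancel] at h4
  -- the coefficients of `E + φ`
  have hEφ : ∀ j, j < T + S - 1 → (∀ g ∈ G, g ∈ Finset.Icc 1 J → j ≠ 2 * g) → (E + φ).coeff j = 0 := by
    intro j hj hjG
    rw [coeff_add, hφ, coeff_map, phiJ_coeff]
    rcases Nat.even_or_odd j with he | ho
    · obtain ⟨g, hg⟩ := he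
      have hg2 : j = 2 * g := by omega
      rcases Nat.eq_zero_or_pos g with hg0 | hg0
      · have hj0 : j = 0 := by omega
        rw [hj0, h0, zero_add]
        have : ∑ g ∈ Finset.Icc 1 J, (if 0 = 2 * g then w g else 0) = 0 := by
          apply Finset.sum_eq_zero
          intro g hg
          rw [Finset.mem_Icc] at hg
          rw [if_neg (by omega)]
        rw [this, map_zero]
      · have hmem : g ∈ Finset.Icc 1 J := by
          rw [Finset.mem_Icc]
          omega
        have : ∑ g' ∈ Finset.Icc 1 J, (if j = 2 * g' then w g' else 0) = w g := by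
          rw [Finset.sum_eq_single g]
          · rw [if_pos hg2]
          · intro g' _ hne
            rw [if_neg (by omega)]
          · intro h
            exact absurd hmem h
        have hgG : g ∉ G := fun h => hjG g h hmem hg2
        rw [this, hg2, heven g hmem hgG]
        simp [hf]
    · have : ∑ g ∈ Finset.Icc 1 J, (if j = 2 * g then w g else 0) = 0 := by
        apply Finset.sum_eq_zero
        intro g _
        obtain ⟨t, ht⟩ := ho
        rw [if_neg (by omega)]
      rw [this, map_zero, hodd j ho (by omega), add_zero]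
  -- decomposition
  set G' := G.filter (fun g => g ∈ Finset.Icc 1 J) with hG'
  set U : (ZMod p)[X] := ∑ g ∈ G', C ((E + φ).coeff (2 * g)) * X ^ (2 * g) with hU
  have hUc : ∀ j, U.coeff j = if ∃ g ∈ G', j = 2 * g then (E + φ).coeff j else 0 := by
    intro j
    rw [hU, finsetSum_coeff]
    simp only [coeff_C_mul, coeff_X_pow]
    split_ifs with h
    · obtain ⟨g, hg, hj⟩ := h
      rw [Finset.sum_eq_single g]
      · rw [if_pos hj, mul_one, hj]
      · intro b _ hb
        rw [if_neg (by omega), mul_zero]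
      · intro h
        exact absurd hg h
    · refine Finset.sum_eq_zero fun g hg => ?_
      rw [if_neg (fun hj => h ⟨g, hg, hj⟩), mul_zero]
  have hrest : ∀ j, j < T + S - 1 → (E + φ - U).coeff j = 0 := by
    intro j hj
    rw [coeff_sub, hUc]
    split_ifs with h
    · rw [sub_self]
    · rw [sub_zero]
      refine hEφ j hj fun g hg hgJ hjg => h ⟨g, ?_, hjg⟩
      rw [hG', Finset.mem_filter]
      exact ⟨hg, hgJ⟩
  have hhs : ∀ m ∈ Finset.range S, (X : (ZMod p)[X]) ^ T ∣ hasseDeriv m (E + φ - U) := by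
    intro m hm
    rw [Finset.mem_range] at hm
    rw [X_pow_dvd_iff]
    intro d hd
    rw [hasseDeriv_coeff, hrest (d + m) (by omega), mul_zero]
  have hUkill : ∑ a ∈ Finset.range A, X ^ a * ∑ m ∈ Finset.range S, R a m * hasseDeriv m U = 0 := by
    have h6 : ∑ a ∈ Finset.range A, X ^ a * ∑ m ∈ Finset.range S, R a m * hasseDeriv m U =
        ∑ g ∈ G', ∑ a ∈ Finset.range A, X ^ a * ∑ m ∈ Finset.range S,
          R a m * hasseDeriv m (C ((E + φ).coeff (2 * g)) * X ^ (2 * g)) := by
      rw [Finset.sum_comm]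
      refine Finset.sum_congr rfl fun a _ => ?_
      rw [← Finset.mul_sum, Finset.sum_comm]
      congr 1
      refine Finset.sum_congr rfl fun m _ => ?_
      rw [hU, map_sum, Finset.mul_sum]
    rw [h6]
    refine Finset.sum_eq_zero fun g hg => ?_
    rw [hG', Finset.mem_filter] at hg
    refine kill_mono p A S g R _ hS fun δ hδ => ?_
    have h7 := congrArg (fun R : (ZMod p)[X] => taylor (n : ZMod p) R) (hkill g hg.1 hg.2 δ hδ)
    simp only [map_sum, map_zero] at h7
    refine Eq.trans (Finset.sum_congr rfl fun a _ => Finset.sum_congr rfl fun m _ => ?_) h7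
    split_ifs
    · rw [taylor_mul, taylor_C]
    · rw [map_zero]
  have h8 : (X : (ZMod p)[X]) ^ T ∣ ∑ a ∈ Finset.range A, X ^ a * ∑ m ∈ Finset.range S,
      R a m * hasseDeriv m (E + φ) := by
    have h9 : ∑ a ∈ Finset.range A, X ^ a * ∑ m ∈ Finset.range S, R a m * hasseDeriv m (E + φ) =
        ∑ a ∈ Finset.range A, X ^ a * ∑ m ∈ Finset.range S, R a m * hasseDeriv m (E + φ - U) := by
      rw [← sub_eq_zero, ← Finset.sum_sub_distrib, ← hUkill]
      refine Finset.sum_congr rfl fun a _ => ?_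
      rw [← mul_sub, ← Finset.sum_sub_distrib]
      congr 1
      refine Finset.sum_congr rfl fun m _ => ?_
      rw [← mul_sub, ← map_sub]
      congr 2
      ring
    rw [h9]
    refine Finset.dvd_sum fun a _ => Dvd.dvd.mul_left (Finset.dvd_sum fun m hm => ?_) _
    exact Dvd.dvd.mul_left (hhs m hm) _
  rw [hsum]
  exact dvd_sub (dvd_sub ((pow_dvd_pow _ hTp).trans h1) h8)
    (Dvd.dvd.mul_right (pow_dvd_pow _ hTp) _)

end MP_a3a416_nt.HJ
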