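import Pool.Agent.Lib.MP_a3a416_nt.LJ.AuxiJ
import Pool.Agent.Lib.MP_a3a416_nt.HJ.Jets

/-!
# HJ-AuxiH
The auxiliary polynomials.  PROOF.  As `LJ.exists_aux`: unknowns `(a, x)`, `a < A`, `x ∈ ix S N` (`4ASN` of them); `κ = Fin A × Fin N × Fin (S+1)` (REG for each `a`); for each `p`:
`V p = (Fin (4N + A p) → ZMod p) × (exceptional g (at most k) × Fin (A+S) × Fin (4N) → ZMod p)`.  Counting: `(2(AJ H)+1)^(AN(S+1)) * P^(4N + A x + 4N(A+S)k) < (H+1)^(4ASN)`.
-/

namespace MP_a3a416_nt.HJ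

open Polynomial MP_a3a416_nt.BB MP_a3a416_nt.LJ

/-- extension by zero of a function on `Fin A × ix S N`. -/
noncomputable def extH (A S N : ℕ) (c : Fin A × ix S N → ℤ) (a : ℕ) : ℕ × ℕ × ℕ → ℤ :=
  if h : a < A then extJ S N (fun x => c (⟨a, h⟩, x)) else fun _ => 0

theorem extH_add (A S N : ℕ) (c c' : Fin A × ix S N → ℤ) (a : ℕ) :
    extH A S N (c + c') a = fun x => extH A S N c a x + extH A S N c' a x := by
  unfold extH
  split_ifs with h
  · exact extJ_add S N (fun x => c (⟨a, h⟩, x)) (fun x => c' (⟨a, h⟩, x))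
  · simp

theorem extH_zero (A S N : ℕ) (a : ℕ) : extH A S N 0 a = fun _ => 0 := by
  unfold extH
  split_ifs with h
  · exact extJ_zero S N
  · rfl

theorem extH_apply (A S N : ℕ) (c : Fin A × ix S N → ℤ) (a : Fin A) (x : ix S N) :
    extH A S N c a x = c (a, x) := by
  unfold extH
  rw [dif_pos a.2]
  exact extJ_apply S N (fun x => c (⟨a, a.2⟩, x)) x

/-- the counting inequality. -/
theorem card_ineq_h {A S N r k x B P H : ℕ} (hA : 1 ≤ A) (hS : 32 * (r + 1) ≤ S)
    (hk : 16 * (r + 1) * k * (A + S) ≤ A * S) (hN : 1 ≤ N) (hx : 4 * (r + 1) * x ≤ S * N) (hB : 1 ≤ B)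
    (hP : 1 ≤ P) (hH : (3 * B) ^ (2 * (r + 1)) * P < (H + 1) ^ (4 * (r + 1))) :
    (2 * (B * H) + 1) ^ (A * (N * (S + 1))) * P ^ (4 * N + A * x + k * ((A + S) * (4 * N))) <
      (H + 1) ^ (A * (4 * S * N)) := by
  have h1 : 2 * (B * H) + 1 ≤ (3 * B) * (H + 1) := by nlinarith
  have hSN : 32 * ((r + 1) * (A * N)) ≤ A * (S * N) := by
    calc 32 * ((r + 1) * (A * N)) = 32 * (r + 1) * (A * N) := by ring
      _ ≤ S * (A * N) := Nat.mul_le_mul_right _ hS
      _ = A * (S * N) := by ring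
  have hAN : 1 ≤ A * N := Nat.mul_pos hA hN
  have hrN : r + 1 ≤ (r + 1) * (A * N) := Nat.le_mul_of_pos_right _ hAN
  have hrN2 : (r + 1) * N ≤ (r + 1) * (A * N) :=
    Nat.mul_le_mul_left _ (Nat.le_mul_of_pos_left _ hA)
  have hNr : A * N ≤ (r + 1) * (A * N) := Nat.le_mul_of_pos_left _ (by omega)
  have hx' : 4 * ((r + 1) * (A * x)) ≤ A * (S * N) := by
    calc 4 * ((r + 1) * (A * x)) = A * (4 * (r + 1) * x) := by ring
      _ ≤ A * (S * N) := Nat.mul_le_mul_left _ hx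
  have hk' : 4 * ((r + 1) * (k * ((A + S) * (4 * N)))) ≤ A * (S * N) := by
    calc 4 * ((r + 1) * (k * ((A + S) * (4 * N)))) = 16 * (r + 1) * k * (A + S) * N := by ring
      _ ≤ A * S * N := Nat.mul_le_mul_right _ hk
      _ = A * (S * N) := by ring
  obtain ⟨Q, hQ⟩ : ∃ Q, Q = (3 * (A * (S * N)) - A * N) / (4 * (r + 1)) := ⟨_, rfl⟩
  have hQ1 : 4 * (r + 1) * Q ≤ 3 * (A * (S * N)) - A * N := by rw [hQ]; exact Nat.mul_div_le _ _
  have hQ2 : 3 * (A * (S * N)) - A * N < 4 * (r + 1) * (Q + 1) := by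
    rw [hQ]; exact Nat.lt_mul_div_succ _ (by omega)
  have hQ3 : 4 * (r + 1) * Q = 4 * ((r + 1) * Q) := by ring
  have hQ4 : 4 * (r + 1) * (Q + 1) = 4 * ((r + 1) * Q) + 4 * (r + 1) := by ring
  have hQa : A * (N * (S + 1)) ≤ 2 * (r + 1) * Q := by
    have e1 : A * (N * (S + 1)) = A * (S * N) + A * N := by ring
    have e2 : 2 * (r + 1) * Q = 2 * ((r + 1) * Q) := by ring
    rw [e1, e2]
    omega
  have hQb : 4 * N + A * x + k * ((A + S) * (4 * N)) ≤ Q := by
    by_contra hcon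
    have hc1 : Q + 1 ≤ 4 * N + A * x + k * ((A + S) * (4 * N)) := by omega
    have hc2 : 4 * (r + 1) * (Q + 1) ≤ 4 * (r + 1) * (4 * N + A * x + k * ((A + S) * (4 * N))) :=
      Nat.mul_le_mul_left _ hc1
    have hc3 : 4 * (r + 1) * (4 * N + A * x + k * ((A + S) * (4 * N))) =
        16 * ((r + 1) * N) + 4 * ((r + 1) * (A * x)) + 4 * ((r + 1) * (k * ((A + S) * (4 * N)))) := by ring
    omega
  have hQc : Q ≠ 0 := by omega
  have hB3 : 1 ≤ 3 * B := by omega
  have k1 : (2 * (B * H) + 1) ^ (A * (N * (S + 1))) ≤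
      (3 * B) ^ (A * (N * (S + 1))) * (H + 1) ^ (A * (N * (S + 1))) := by
    rw [← Nat.mul_pow]
    exact Nat.pow_le_pow_left h1 _
  have k2 : (3 * B) ^ (A * (N * (S + 1))) * P ^ (4 * N + A * x + k * ((A + S) * (4 * N))) <
      (H + 1) ^ (3 * (A * (S * N)) - A * N) := by
    calc (3 * B) ^ (A * (N * (S + 1))) * P ^ (4 * N + A * x + k * ((A + S) * (4 * N))) ≤
        (3 * B) ^ (2 * (r + 1) * Q) * P ^ Q :=
          Nat.mul_le_mul (Nat.pow_le_pow_right hB3 hQa) (Nat.pow_le_pow_right hP hQb)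
      _ = ((3 * B) ^ (2 * (r + 1)) * P) ^ Q := by
          rw [Nat.mul_pow ((3 * B) ^ (2 * (r + 1))) P Q, ← Nat.pow_mul]
      _ < ((H + 1) ^ (4 * (r + 1))) ^ Q := Nat.pow_lt_pow_left hH hQc
      _ = (H + 1) ^ (4 * (r + 1) * Q) := by rw [← Nat.pow_mul]
      _ ≤ (H + 1) ^ (3 * (A * (S * N)) - A * N) := Nat.pow_le_pow_right (by omega) hQ1
  have k3 : A * (4 * S * N) = A * (N * (S + 1)) + (3 * (A * (S * N)) - A * N) := by
    have e1 : A * (N * (S + 1)) = A * (S * N) + A * N := by ring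
    have e2 : A * (4 * S * N) = 4 * (A * (S * N)) := by ring
    rw [e1, e2]
    omega
  rw [k3, Nat.pow_add (H + 1)]
  calc (2 * (B * H) + 1) ^ (A * (N * (S + 1))) * P ^ (4 * N + A * x + k * ((A + S) * (4 * N)))
      ≤ ((3 * B) ^ (A * (N * (S + 1))) * (H + 1) ^ (A * (N * (S + 1)))) *
        P ^ (4 * N + A * x + k * ((A + S) * (4 * N))) := Nat.mul_le_mul_right _ k1
    _ = (H + 1) ^ (A * (N * (S + 1))) *
        ((3 * B) ^ (A * (N * (S + 1))) * P ^ (4 * N + A * x + k * ((A + S) * (4 * N)))) := by ring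
    _ < (H + 1) ^ (A * (N * (S + 1))) * (H + 1) ^ (3 * (A * (S * N)) - A * N) :=
      Nat.mul_lt_mul_of_pos_left k2 (by positivity)

theorem exists_aux {A S N J T r k x : ℕ} (v : ℕ → ℕ → ℤ) (hA : 1 ≤ A) (hS : 32 * (r + 1) ≤ S)
    (hk : 16 * (r + 1) * k * (A + S) ≤ A * S) (hJ : T + S ≤ 2 * J + 3) (hT : T ≤ N)
    (hN : 2 * J + 5 ≤ N) (hx : 4 * (r + 1) * x ≤ S * N)
    (Ps : Finset ℕ) (lam : ℕ → ℕ → ℤ)
    (hP : ∀ p ∈ Ps, p.Prime ∧ N < p ∧ p ≤ x ∧ BadH J r k v (lam p) p)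
    (H : ℕ) (hH1 : 1 ≤ H) (hH : (3 * AJ S N) ^ (2 * (r + 1)) * ∏ p ∈ Ps, p < (H + 1) ^ (4 * (r + 1))) :
    ∃ c : ℕ → ℕ × ℕ × ℕ → ℤ, (∃ a < A, ∃ x ∈ ix S N, c a x ≠ 0) ∧ (∀ a < A, ∀ x ∈ ix S N, |c a x| ≤ (H : ℤ)) ∧
      (∀ a < A, REG S N (c a)) ∧
      ∀ p ∈ Ps, ∀ n < N, ∀ k < T,
        (p : ℤ) ∣ (rH A S N c n - sH A S N J c (LI.comb r v (lam p)) n).coeff k := by
  classical
  have hN1 : 1 ≤ N := by omega
  have hS1 : 1 ≤ S := by omega
  have hfact : ∀ p : Ps, Fact (p : ℕ).Prime := fun p => ⟨(hP p p.2).1⟩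
  have hneZ : ∀ p : Ps, NeZero (p : ℕ) := fun p => ⟨(hP p p.2).1.ne_zero⟩
  have hNp : ∀ p : Ps, N < (p : ℕ) := fun p => (hP p p.2).2.1
  have hex : ∀ p : Ps, ∃ E : (ZMod (p : ℕ))[X], E.natDegree < p ∧ E.coeff 0 = 0 ∧
      E.comp (X + 1) - E = (X + 1) ^ ((p : ℕ) - 2) ∧
      (∀ k, Odd k → k + 4 ≤ (p : ℕ) → E.coeff k = 0) ∧
      (∀ g, 1 ≤ g → 2 * g + 3 ≤ (p : ℕ) → ∀ a : ℤ,
        ((p : ℕ) : ℤ) ∣ (_root_.bernoulli ((p : ℕ) - 1 - 2 * g) - (a : ℚ)).num →
        E.coeff (2 * g) = -(a : ZMod (p : ℕ))) := fun p => by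
    have := hfact p
    exact LI.exists_E_w (p : ℕ) (by have := hNp p; omega)
  choose E hE using hex
  let V : Ps → Type := fun p => (Fin (4 * N + A * (p : ℕ)) → ZMod (p : ℕ)) ×
    ((exc J r v (lam p) p) × Fin (A + S) × Fin (4 * N) → ZMod (p : ℕ))
  have hVfin : ∀ p : Ps, Finite (V p) := fun p => by
    have := hneZ p
    infer_instance
  let P2 : ∀ p : Ps, (Fin A × ix S N → ℤ) → (ZMod (p : ℕ))[X] := fun p c =>
    ∑ a ∈ Finset.range A, (X - X ^ (p : ℕ)) ^ a * ∑ m ∈ Finset.range S,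
      (PJ N (extH A S N c a) m).map (Int.castRingHom (ZMod (p : ℕ))) * hasseDeriv m (E p)
  have hP2add : ∀ p c c', P2 p (c + c') = P2 p c + P2 p c' := by
    intro p c c'
    simp only [P2, extH_add, PJ_add, Polynomial.map_add, add_mul, Finset.sum_add_distrib, mul_add]
  have hP2zero : ∀ p, P2 p 0 = 0 := by
    intro p
    simp only [P2, extH_zero, PJ_zero, Polynomial.map_zero, zero_mul, Finset.sum_const_zero, mul_zero]
  let K2 : ∀ p : Ps, ℕ → ℕ → (Fin A × ix S N → ℤ) → (ZMod (p : ℕ))[X] := fun p g δ c =>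
    ∑ a ∈ Finset.range A, ∑ m ∈ Finset.range S,
      (if a + (S - 1 - m) = δ then C (((2 * g).choose m : ℕ) : ZMod (p : ℕ)) *
        (PJ N (extH A S N c a) m).map (Int.castRingHom (ZMod (p : ℕ))) else 0)
  have hK2add : ∀ p g δ c c', K2 p g δ (c + c') = K2 p g δ c + K2 p g δ c' := by
    intro p g δ c c'
    simp only [K2]
    rw [← Finset.sum_add_distrib]
    refine Finset.sum_congr rfl fun a _ => ?_
    rw [← Finset.sum_add_distrib]
    refine Finset.sum_congr rfl fun m _ => ?_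
    split_ifs
    · rw [extH_add, PJ_add, Polynomial.map_add, mul_add]
    · rw [add_zero]
  have hK2zero : ∀ p g δ, K2 p g δ 0 = 0 := by
    intro p g δ
    simp only [K2]
    refine Finset.sum_eq_zero fun a _ => Finset.sum_eq_zero fun m _ => ?_
    split_ifs
    · rw [extH_zero, PJ_zero, Polynomial.map_zero, mul_zero]
    · rfl
  let φ : ∀ p : Ps, (Fin A × ix S N → ℤ) →+ V p := fun p =>
    { toFun := fun c => (fun l => (P2 p c).coeff l, fun y => (K2 p y.1 y.2.1 c).coeff y.2.2)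
      map_zero' := by
        simp only [hP2zero, hK2zero, coeff_zero]
        rfl
      map_add' := by
        intro c c'
        simp only [hP2add, hK2add, coeff_add]
        rfl }
  let ψ : (Fin A × ix S N → ℤ) →+ (Fin A × Fin N × Fin (S + 1) → ℤ) :=
    { toFun := fun c => fun k =>
        ((DJ N (S + 1) : ℤ) * regF S N (extH A S N c k.1) (k.2.1 : ℕ) ((k.2.2 : ℕ) + 1)) / (FN N : ℤ)
      map_zero' := by
        funext k
        show ((DJ N (S + 1) : ℤ) * regF S N (extH A S N 0 k.1) (k.2.1 : ℕ) ((k.2.2 : ℕ) + 1)) / (FN N : ℤ) = 0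
        rw [extH_zero, regF_zero, mul_zero, Int.zero_ediv]
      map_add' := by
        intro c c'
        funext k
        show ((DJ N (S + 1) : ℤ) * regF S N (extH A S N (c + c') k.1) (k.2.1 : ℕ) ((k.2.2 : ℕ) + 1)) / (FN N : ℤ) =
          ((DJ N (S + 1) : ℤ) * regF S N (extH A S N c k.1) (k.2.1 : ℕ) ((k.2.2 : ℕ) + 1)) / (FN N : ℤ) +
          ((DJ N (S + 1) : ℤ) * regF S N (extH A S N c' k.1) (k.2.1 : ℕ) ((k.2.2 : ℕ) + 1)) / (FN N : ℤ)
        rw [extH_add, regF_add, mul_add]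
        exact Int.add_ediv_of_dvd_left (regF_dvd _ k.2.1.2 (by omega)) }
  have hcardι : Fintype.card (Fin A × ix S N) = A * (4 * S * N) := by
    rw [Fintype.card_prod, Fintype.card_fin, Fintype.card_coe]
    unfold ix
    rw [Finset.card_product, Finset.card_product, Finset.card_range, Finset.card_range, Finset.card_range]
    ring
  have hψ : ∀ c : Fin A × ix S N → ℤ, (∀ i, |c i| ≤ (H : ℤ)) → ∀ k, |ψ c k| ≤ ((AJ S N * H : ℕ) : ℤ) := by
    intro c hc k
    obtain ⟨z, hz1, hz2⟩ := regF_bound (S := S) (N := N) (H := H) (extH A S N c k.1) (by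
      intro x hx
      have := hc (k.1, ⟨x, hx⟩)
      rw [← extH_apply A S N c k.1 ⟨x, hx⟩] at this
      exact this) (a := (k.2.1 : ℕ)) (i := (k.2.2 : ℕ) + 1) k.2.1.2 (by omega)
    have h1 : ψ c k = z := by
      show ((DJ N (S + 1) : ℤ) * regF S N (extH A S N c k.1) (k.2.1 : ℕ) ((k.2.2 : ℕ) + 1)) / (FN N : ℤ) = z
      rw [hz1]
      exact Int.mul_ediv_cancel_left _ (by have := FN_pos N; positivity)
    rw [h1]
    exact hz2
  have hV : ∏ p : Ps, Nat.card (V p) ≤ (∏ p ∈ Ps, p) ^ (4 * N + A * x + k * ((A + S) * (4 * N))) := by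
    rw [← Finset.prod_pow]
    rw [← Finset.prod_coe_sort Ps (fun p => p ^ (4 * N + A * x + k * ((A + S) * (4 * N))))]
    apply Finset.prod_le_prod'
    intro p _
    have := hneZ p
    have h1 : Nat.card (V p) = (p : ℕ) ^ (4 * N + A * (p : ℕ)) *
        (p : ℕ) ^ ((exc J r v (lam p) p).card * ((A + S) * (4 * N))) := by
      simp only [V]
      rw [Nat.card_prod, Nat.card_fun, Nat.card_fun]
      simp only [Nat.card_eq_fintype_card, ZMod.card, Fintype.card_fin, Fintype.card_prod, Fintype.card_coe]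
    rw [h1, ← pow_add]
    refine Nat.pow_le_pow_right (by have := hNp p; omega) (Nat.add_le_add (Nat.add_le_add_left
      (Nat.mul_le_mul_left _ (hP p p.2).2.2.1) _) (Nat.mul_le_mul_right _ (hP p p.2).2.2.2))
  have hPpos : 1 ≤ ∏ p ∈ Ps, p := Finset.one_le_prod' (fun p hp => (hP p hp).1.one_le)
  have hApos : 1 ≤ AJ S N := by
    unfold AJ
    have := DJ_pos N (S + 1)
    exact Nat.mul_pos this (by positivity)
  have hcard : (2 * (AJ S N * H) + 1) ^ Fintype.card (Fin A × Fin N × Fin (S + 1)) *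
      ∏ p : Ps, Nat.card (V p) < (H + 1) ^ Fintype.card (Fin A × ix S N) := by
    rw [hcardι, Fintype.card_prod, Fintype.card_prod, Fintype.card_fin, Fintype.card_fin, Fintype.card_fin]
    exact lt_of_le_of_lt (Nat.mul_le_mul_left _ hV) (card_ineq_h hA hS hk hN1 hx hApos hPpos hH)
  obtain ⟨c, hc0, hcH, hc, hψc⟩ := siegel_mixed (ι := Fin A × ix S N) (κ := Fin A × Fin N × Fin (S + 1))
    Ps H (AJ S N * H) V φ ψ hψ hcard
  have hREG : ∀ a < A, REG S N (extH A S N c a) := by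
    intro b hb a ha i hi1 hi2
    have h1 := congrFun hψc (⟨b, hb⟩, ⟨a, ha⟩, ⟨i - 1, by omega⟩)
    have h2 : ((DJ N (S + 1) : ℤ) * regF S N (extH A S N c b) a (i - 1 + 1)) / (FN N : ℤ) = 0 := h1
    have h3 : i - 1 + 1 = i := by omega
    rw [h3] at h2
    have h4 := Int.ediv_mul_cancel (regF_dvd (S := S) (extH A S N c b) ha hi1)
    rw [h2, zero_mul] at h4
    have h5 : (DJ N (S + 1) : ℤ) ≠ 0 := by have := DJ_pos N (S + 1); positivity
    exact (mul_eq_zero.mp h4.symm).resolve_left h5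
  refine ⟨extH A S N c, ?_, ?_, hREG, ?_⟩
  · by_contra hcon
    push Not at hcon
    apply hc0
    funext y
    obtain ⟨a, x⟩ := y
    rw [← extH_apply A S N c a x]
    exact hcon a a.2 x x.2
  · intro a ha x hx
    have := hcH (⟨a, ha⟩, ⟨x, hx⟩)
    rw [← extH_apply A S N c ⟨a, ha⟩ ⟨x, hx⟩] at this
    exact this
  · intro p hp n hn k hk
    have hφ := hc ⟨p, hp⟩
    have : Fact p.Prime := ⟨(hP p hp).1⟩
    have hpN : N < p := (hP p hp).2.1
    obtain ⟨hE1, hE2, hE3, hE4, hE5⟩ := hE ⟨p, hp⟩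
    have hφ1 := congrArg Prod.fst hφ
    have hφ1' := congrArg Prod.snd hφ
    have hφ2 : ∀ l, l < 4 * N + A * p → (P2 ⟨p, hp⟩ c).coeff l = 0 := by
      intro l hl
      exact congrFun hφ1 ⟨l, hl⟩
    have hPd : ∀ a m, ((PJ N (extH A S N c a) m).map (Int.castRingHom (ZMod p))).natDegree < 4 * N := by
      intro a m
      exact lt_of_le_of_lt natDegree_map_le (natDegree_PJ_lt hN1 (extH A S N c a) m)
    have hd2 : (P2 ⟨p, hp⟩ c).natDegree < 4 * N + A * p := by
      have h7 : (P2 ⟨p, hp⟩ c).natDegree ≤ 4 * N + A * p - 1 := by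
        apply natDegree_sum_le_of_forall_le
        intro a ha
        rw [Finset.mem_range] at ha
        refine natDegree_mul_le.trans ?_
        have h20 : ((X - X ^ p : (ZMod p)[X]) ^ a).natDegree ≤ a * p := by
          refine natDegree_pow_le.trans (Nat.mul_le_mul_left _ ?_)
          refine (natDegree_sub_le _ _).trans (max_le ?_ ?_)
          · exact natDegree_X_le.trans (by omega)
          · exact natDegree_X_pow_le _
        have h21 : (∑ m ∈ Finset.range S, (PJ N (extH A S N c a) m).map (Int.castRingHom (ZMod p)) *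
            hasseDeriv m (E ⟨p, hp⟩)).natDegree ≤ 4 * N - 1 + (p - 1) := by
          apply natDegree_sum_le_of_forall_le
          intro m hm
          refine natDegree_mul_le.trans ?_
          have h8 := hPd a m
          have h10 : (hasseDeriv m (E ⟨p, hp⟩)).natDegree ≤ (E ⟨p, hp⟩).natDegree :=
            (natDegree_hasseDeriv_le _ _).trans (Nat.sub_le _ _)
          have h11 : (E ⟨p, hp⟩).natDegree < p := hE1
          have h12 : (((PJ N (extH A S N c a) m).map (Int.castRingHom (ZMod p))).natDegree +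
            (hasseDeriv m (E ⟨p, hp⟩)).natDegree) ≤ 4 * N - 1 + (p - 1) := by omega
          exact h12
        have h22 : (a + 1) * p ≤ A * p := Nat.mul_le_mul_right _ ha
        have h23 : (a + 1) * p = a * p + p := by ring
        have h24 : ((X - X ^ p : (ZMod p)[X]) ^ a).natDegree +
          (∑ m ∈ Finset.range S, (PJ N (extH A S N c a) m).map (Int.castRingHom (ZMod p)) *
            hasseDeriv m (E ⟨p, hp⟩)).natDegree ≤ 4 * N + A * p - 1 := by omega
        exact h24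
      have : 0 < A * p := Nat.mul_pos hA (by omega)
      omega
    have hM : P2 ⟨p, hp⟩ c = 0 := by
      ext l
      rw [coeff_zero]
      rcases Nat.lt_or_ge l (4 * N + A * p) with hl | hl
      · exact hφ2 l hl
      · exact coeff_eq_zero_of_natDegree_lt (lt_of_lt_of_le hd2 hl)
    have hKK : ∀ g ∈ exc J r v (lam p) p, g ∈ Finset.Icc 1 J → ∀ δ < A + S, K2 ⟨p, hp⟩ g δ c = 0 := by
      intro g hg _ δ hδ
      have hdK : (K2 ⟨p, hp⟩ g δ c).natDegree ≤ 4 * N - 1 := by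
        apply natDegree_sum_le_of_forall_le
        intro a ha
        apply natDegree_sum_le_of_forall_le
        intro m hm
        split_ifs
        · refine natDegree_mul_le.trans ?_
          have h8 := hPd a m
          have h9 : (C (((2 * g).choose m : ℕ) : ZMod p) : (ZMod p)[X]).natDegree = 0 := natDegree_C _
          have h10 : (C (((2 * g).choose m : ℕ) : ZMod p) : (ZMod p)[X]).natDegree +
            ((PJ N (extH A S N c a) m).map (Int.castRingHom (ZMod p))).natDegree ≤ 4 * N - 1 := by omega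
          exact h10
        · rw [natDegree_zero]
          exact Nat.zero_le _
      ext l
      rw [coeff_zero]
      rcases Nat.lt_or_ge l (4 * N) with hl | hl
      · exact congrFun hφ1' (⟨g, hg⟩, ⟨δ, hδ⟩, ⟨l, hl⟩)
      · exact coeff_eq_zero_of_natDegree_lt (by omega)
    exact jets_modp p A S N J T (extH A S N c) (LI.comb r v (lam p)) (exc J r v (lam p) p) hS1 hpN
      (by omega) (by omega) (by omega) hJ (E ⟨p, hp⟩) hE2 hE3 hE4
      (fun g hg hgG => hE5 g (Finset.mem_Icc.mp hg).1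
        (by have h1 := (Finset.mem_Icc.mp hg).2
            have h2 : 2 * g + 3 ≤ p := by omega
            exact h2) _ (by
              by_contra hcon
              exact hgG (Finset.mem_filter.2 ⟨hg, hcon⟩))) hREG hM hKK hn hk

end MP_a3a416_nt.HJ
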