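import Pool.Agent.Lib.MP_a3a416_nt.LJ.RrBound
import Pool.Agent.Lib.MP_a3a416_nt.LJ.SjBound
import Pool.Agent.Lib.MP_a3a416_nt.HJ.Defs

/-!
# HJ-Bounds
The integers for `rH` and `sH` (jets of order `< T`).  PROOF.  As `LJ.rJ_bound`, `LJ.sJ_bound` with `T` instead of `4S+10` and `T+S+1` instead of `5S+11` (`LJ.FN_dvd_rJ`, `LJ.FN_dvd_PJ` are general), then sum over
`a < A`: the coefficient `k` of `X^a * f` is that of index `k - a` of `f` or `0`.
-/

namespace MP_a3a416_nt.HJ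

open Polynomial MP_a3a416_nt.BB MP_a3a416_nt.LJ

/-- size of the jets of order `< T0` for one `a` -/
private def E1 (S N T0 : ℕ) : ℕ := DJ N (T0 + S + 1) * (S * T0 * (4 * N ^ 2) * 2 ^ N * 4 ^ (T0 + S))

private theorem EH_eq (A S N T0 : ℕ) : EH A S N T0 = A * E1 S N T0 := by
  unfold EH E1
  ring

/-- summing over `a < A` -/
private theorem sum_bound {A k F0 B : ℕ} {D : ℤ} (f : ℕ → ℤ[X])
    (h : ∀ a < A, ∀ j ≤ k, ∃ z : ℤ, D * (f a).coeff j = (F0 : ℤ) * z ∧ |z| ≤ (B : ℤ)) :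
    ∃ z : ℤ, D * (∑ a ∈ Finset.range A, X ^ a * f a).coeff k = (F0 : ℤ) * z ∧
      |z| ≤ ((A * B : ℕ) : ℤ) := by
  have hex : ∀ a : ℕ, ∃ z : ℤ, a < A → (D * (X ^ a * f a).coeff k = (F0 : ℤ) * z ∧ |z| ≤ (B : ℤ)) := by
    intro a
    by_cases ha : a < A
    · by_cases hak : a ≤ k
      · obtain ⟨z, h1, h2⟩ := h a ha (k - a) (Nat.sub_le k a)
        refine ⟨z, fun _ => ⟨?_, h2⟩⟩
        rw [coeff_X_pow_mul', if_pos hak, h1]
      · refine ⟨0, fun _ => ⟨?_, ?_⟩⟩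
        · rw [coeff_X_pow_mul', if_neg hak]
          ring
        · rw [abs_zero]
          exact Int.natCast_nonneg _
    · exact ⟨0, fun h1 => absurd h1 ha⟩
  choose z hz using hex
  refine ⟨∑ a ∈ Finset.range A, z a, ?_, ?_⟩
  · rw [finsetSum_coeff, Finset.mul_sum, Finset.mul_sum]
    exact Finset.sum_congr rfl fun a ha => (hz a (Finset.mem_range.1 ha)).1
  · calc |∑ a ∈ Finset.range A, z a| ≤ ∑ a ∈ Finset.range A, |z a| :=
          Finset.abs_sum_le_sum_abs _ _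
      _ ≤ ∑ _a ∈ Finset.range A, (B : ℤ) :=
          Finset.sum_le_sum fun a ha => (hz a (Finset.mem_range.1 ha)).2
      _ = ((A * B : ℕ) : ℤ) := by
          rw [Finset.sum_const, Finset.card_range, nsmul_eq_mul]
          push_cast
          ring

private theorem rrb_vser {n N l : ℕ} (hn : n < N) :
    |PowerSeries.coeff l (vser 1 n)| ≤ (N : ℚ) * 2 ^ l := by
  unfold vser jet
  rw [map_sum]
  have h1 : ∀ b ∈ Finset.Icc 1 (1 * n), |PowerSeries.coeff l (PowerSeries.mk (fun k =>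
      (-1 : ℚ) ^ k * ((k : ℚ) + 1) * ((1 : ℕ) : ℚ) ^ k / (b : ℚ) ^ (k + 1)))| ≤ 2 ^ l := by
    intro b hb
    rw [Finset.mem_Icc] at hb
    rw [PowerSeries.coeff_mk, abs_div, abs_mul, abs_mul, abs_pow, abs_neg, abs_one, one_pow, one_mul,
      Nat.cast_one, one_pow, abs_one, mul_one]
    have h2 : (1 : ℚ) ≤ |(b : ℚ) ^ (l + 1)| := by
      rw [abs_of_nonneg (by positivity)]
      exact one_le_pow₀ (by exact_mod_cast hb.1)
    have h3 : |(l : ℚ) + 1| ≤ 2 ^ l := by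
      rw [abs_of_nonneg (by positivity)]
      have : l + 1 ≤ 2 ^ l := Nat.lt_two_pow_self
      exact_mod_cast this
    rw [div_le_iff₀ (by linarith)]
    nlinarith [h2, h3, abs_nonneg ((l : ℚ) + 1)]
  calc |∑ b ∈ Finset.Icc 1 (1 * n), PowerSeries.coeff l (PowerSeries.mk (fun k =>
      (-1 : ℚ) ^ k * ((k : ℚ) + 1) * ((1 : ℕ) : ℚ) ^ k / (b : ℚ) ^ (k + 1)))|
      ≤ ∑ b ∈ Finset.Icc 1 (1 * n), |PowerSeries.coeff l (PowerSeries.mk (fun k =>
      (-1 : ℚ) ^ k * ((k : ℚ) + 1) * ((1 : ℕ) : ℚ) ^ k / (b : ℚ) ^ (k + 1)))| :=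
        Finset.abs_sum_le_sum_abs _ _
    _ ≤ ∑ _b ∈ Finset.Icc 1 (1 * n), (2 : ℚ) ^ l := Finset.sum_le_sum h1
    _ = (n : ℚ) * 2 ^ l := by
        rw [Finset.sum_const, Nat.card_Icc, nsmul_eq_mul]
        simp
    _ ≤ (N : ℚ) * 2 ^ l := by
        refine mul_le_mul_of_nonneg_right ?_ (by positivity)
        exact_mod_cast hn.le

private theorem rrb_hD {n N m j L : ℕ} (hn : n < N) (hL : j + m ≤ L) :
    |PowerSeries.coeff j (hD m (vser 1 n))| ≤ (N : ℚ) * 4 ^ L := by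
  unfold hD
  rw [PowerSeries.coeff_mk, abs_mul]
  have h1 := rrb_vser (l := j + m) hn
  have h2 : |(((j + m).choose m : ℕ) : ℚ)| ≤ 2 ^ (j + m) := by
    rw [Nat.abs_cast]
    exact_mod_cast Nat.choose_le_two_pow _ _
  calc |(((j + m).choose m : ℕ) : ℚ)| * |PowerSeries.coeff (j + m) (vser 1 n)|
      ≤ 2 ^ (j + m) * ((N : ℚ) * 2 ^ (j + m)) :=
        mul_le_mul h2 h1 (abs_nonneg _) (by positivity)
    _ = (N : ℚ) * 4 ^ (j + m) := by
        have : (4 : ℚ) ^ (j + m) = 2 ^ (j + m) * 2 ^ (j + m) := by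
          rw [← mul_pow]; norm_num
        rw [this]; ring
    _ ≤ (N : ℚ) * 4 ^ L := by
        refine mul_le_mul_of_nonneg_left ?_ (by positivity)
        exact pow_le_pow_right₀ (by norm_num) hL

private theorem hrb_arith {N : ℕ} {S k F H T T0 : ℚ} (hk : k ≤ T0) (hS : 0 ≤ S) (hF : 0 ≤ F)
    (hH : 0 ≤ H) (hT : 0 ≤ T) : S * k * (F * (4 * N * H * 2 ^ N) * (N * T)) ≤
      F * (S * T0 * (4 * (N : ℚ) ^ 2) * 2 ^ N * T * H) := by
  have h1 : 0 ≤ S * (F * (4 * N * H * 2 ^ N) * (N * T)) := by positivity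
  have h2 := mul_le_mul_of_nonneg_left hk h1
  nlinarith [h2]

private theorem rJ_boundT {S N H T0 : ℕ} (c : ℕ × ℕ × ℕ → ℤ) (hc : ∀ x ∈ ix S N, |c x| ≤ (H : ℤ)) (hreg : REG S N c)
    {n k : ℕ} (hn : n < N) (hk : k < T0) :
    ∃ z : ℤ, (DJ N (T0 + S + 1) : ℤ) * (rJ S N c n).coeff k = (FN N : ℤ) * z ∧
      |z| ≤ ((E1 S N T0 * H : ℕ) : ℤ) := by
  obtain ⟨z, hz⟩ := FN_dvd_rJ (S := S) (K := T0 + S + 1) (k := k) c hn (by omega)
  refine ⟨z, hz, ?_⟩
  have hser := congrArg (PowerSeries.coeff k) (rJ_series c hreg hn.le)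
  rw [Polynomial.coeff_coe, coeff_map, map_sum] at hser
  obtain ⟨T, hT⟩ : ∃ T : ℚ, T = 4 ^ (T0 + S) := ⟨_, rfl⟩
  have hT0 : 0 ≤ T := by rw [hT]; positivity
  obtain ⟨M, hM⟩ : ∃ M : ℚ, M = (FN N : ℚ) * (4 * N * H * 2 ^ N) := ⟨_, rfl⟩
  have hM0 : 0 ≤ M := by
    rw [hM]
    refine mul_nonneg (Nat.cast_nonneg _) ?_
    positivity
  have hterm : ∀ m ∈ Finset.range S, |PowerSeries.coeff k
      (((taylor (n : ℚ) ((PJ N c m).map (Int.castRingHom ℚ)) : ℚ[X]) : PowerSeries ℚ) *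
        hD m (vser 1 n))| ≤ ((k + 1 : ℕ) : ℚ) * (M * (N * T)) := by
    intro m hm
    rw [Finset.mem_range] at hm
    rw [PowerSeries.coeff_mul]
    calc |∑ x ∈ Finset.HasAntidiagonal.antidiagonal k,
          PowerSeries.coeff x.1
            ((taylor (n : ℚ) ((PJ N c m).map (Int.castRingHom ℚ)) : ℚ[X]) : PowerSeries ℚ) *
          PowerSeries.coeff x.2 (hD m (vser 1 n))|
        ≤ ∑ x ∈ Finset.HasAntidiagonal.antidiagonal k,
          |PowerSeries.coeff x.1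
            ((taylor (n : ℚ) ((PJ N c m).map (Int.castRingHom ℚ)) : ℚ[X]) : PowerSeries ℚ) *
          PowerSeries.coeff x.2 (hD m (vser 1 n))| := Finset.abs_sum_le_sum_abs _ _
      _ ≤ ∑ _x ∈ Finset.HasAntidiagonal.antidiagonal k, M * (N * T) := by
          refine Finset.sum_le_sum fun x hx => ?_
          have hx0 := Finset.HasAntidiagonal.mem_antidiagonal.1 hx
          rw [abs_mul]
          have h1 : |PowerSeries.coeff x.1
            ((taylor (n : ℚ) ((PJ N c m).map (Int.castRingHom ℚ)) : ℚ[X]) : PowerSeries ℚ)| ≤ M := by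
            have h2 : taylor (n : ℚ) ((PJ N c m).map (Int.castRingHom ℚ)) =
                (taylor (n : ℤ) (PJ N c m)).map (Int.castRingHom ℚ) := by
              rw [Polynomial.taylor_apply, Polynomial.taylor_apply, Polynomial.map_comp]
              simp
            rw [Polynomial.coeff_coe, h2, coeff_map, hM]
            have h3 := PJ_size c hc hm hn x.1
            have h4 : ((|(taylor (n : ℤ) (PJ N c m)).coeff x.1| : ℤ) : ℚ) ≤
                (((FN N * (4 * N * H * 2 ^ N) : ℕ) : ℤ) : ℚ) := by exact_mod_cast h3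
            rw [Int.cast_abs] at h4
            refine h4.trans (le_of_eq ?_)
            push_cast
            ring
          have h5 : |PowerSeries.coeff x.2 (hD m (vser 1 n))| ≤ N * T := by
            rw [hT]
            exact rrb_hD hn (by omega)
          exact mul_le_mul h1 h5 (abs_nonneg _) hM0
      _ = ((k + 1 : ℕ) : ℚ) * (M * (N * T)) := by
          rw [Finset.sum_const, Finset.Nat.card_antidiagonal, nsmul_eq_mul]
  have hr : |((rJ S N c n).coeff k : ℚ)| ≤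
      (FN N : ℚ) * ((S : ℚ) * T0 * (4 * (N : ℚ) ^ 2) * 2 ^ N * T * H) := by
    obtain ⟨Gf, hGf⟩ : ∃ Gf : ℕ → ℚ, ∀ m, Gf m = PowerSeries.coeff k
      (((taylor (n : ℚ) ((PJ N c m).map (Int.castRingHom ℚ)) : ℚ[X]) : PowerSeries ℚ) *
        hD m (vser 1 n)) := ⟨_, fun _ => rfl⟩
    have h1 : ((rJ S N c n).coeff k : ℚ) = ∑ m ∈ Finset.range S, Gf m := by
      rw [Finset.sum_congr rfl fun m _ => hGf m]
      exact hser
    have hterm' : ∀ m ∈ Finset.range S, |Gf m| ≤ ((k + 1 : ℕ) : ℚ) * (M * (N * T)) := by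
      intro m hm
      rw [hGf]
      exact hterm m hm
    rw [h1]
    calc |∑ m ∈ Finset.range S, Gf m| ≤ ∑ m ∈ Finset.range S, |Gf m| :=
          Finset.abs_sum_le_sum_abs _ _
      _ ≤ ∑ _m ∈ Finset.range S, ((k + 1 : ℕ) : ℚ) * (M * (N * T)) := Finset.sum_le_sum hterm'
      _ = (S : ℚ) * ((k + 1 : ℕ) : ℚ) * (M * (N * T)) := by
          rw [Finset.sum_const, Finset.card_range, nsmul_eq_mul, mul_assoc]
      _ ≤ _ := by
          rw [hM]
          refine hrb_arith ?_ (Nat.cast_nonneg _) (Nat.cast_nonneg _) (Nat.cast_nonneg _) hT0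
          exact_mod_cast hk
  have hF : (0 : ℚ) < (FN N : ℚ) := by exact_mod_cast FN_pos N
  have hzq : ((DJ N (T0 + S + 1) : ℕ) : ℚ) * ((rJ S N c n).coeff k : ℚ) = (FN N : ℚ) * (z : ℚ) := by
    exact_mod_cast hz
  have h2 : (FN N : ℚ) * |(z : ℚ)| ≤ (FN N : ℚ) * (((E1 S N T0 * H : ℕ) : ℤ) : ℚ) := by
    have h3 : (FN N : ℚ) * |(z : ℚ)| =
        ((DJ N (T0 + S + 1) : ℕ) : ℚ) * |((rJ S N c n).coeff k : ℚ)| := by
      rw [← abs_of_pos hF, ← abs_mul, ← hzq, abs_mul, Nat.abs_cast]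
    rw [h3]
    refine (mul_le_mul_of_nonneg_left hr (Nat.cast_nonneg _)).trans (le_of_eq ?_)
    unfold E1
    rw [hT]
    push_cast
    ring
  have h4 : |(z : ℚ)| ≤ (((E1 S N T0 * H : ℕ) : ℤ) : ℚ) := le_of_mul_le_mul_left h2 hF
  exact_mod_cast h4

private theorem sjb_int {S N H K : ℕ} (c : ℕ × ℕ × ℕ → ℤ) (hc : ∀ x ∈ ix S N, |c x| ≤ (H : ℤ))
    {m n k : ℕ} (hm : m < S) (hn : n < N) (hk : k ≤ K) :
    ∃ z : ℤ, (DJ N K : ℤ) * (taylor (n : ℤ) (PJ N c m)).coeff k = (FN N : ℤ) * z ∧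
      |z| ≤ (DJ N K : ℤ) * (4 * N * H * 2 ^ N) := by
  obtain ⟨z, hz⟩ := FN_dvd_PJ (N := N) (K := K) (n := n) (k := k) (m := m) c hk
  refine ⟨z, hz, ?_⟩
  have h1 := PJ_size c hc hm hn k
  have hF : (0 : ℤ) < (FN N : ℤ) := by exact_mod_cast FN_pos N
  have hD : (0 : ℤ) ≤ (DJ N K : ℤ) := by positivity
  have h2 : (FN N : ℤ) * |z| = (DJ N K : ℤ) * |(taylor (n : ℤ) (PJ N c m)).coeff k| := by
    rw [← abs_of_pos hF, ← abs_mul, ← hz, abs_mul, abs_of_nonneg hD]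
  have h3 : (FN N : ℤ) * |z| ≤ (FN N : ℤ) * ((DJ N K : ℤ) * (4 * N * H * 2 ^ N)) := by
    rw [h2]
    calc (DJ N K : ℤ) * |(taylor (n : ℤ) (PJ N c m)).coeff k|
        ≤ (DJ N K : ℤ) * ((FN N * (4 * N * H * 2 ^ N) : ℕ) : ℤ) :=
          mul_le_mul_of_nonneg_left h1 hD
      _ = _ := by push_cast; ring
  exact le_of_mul_le_mul_left h3 hF

private theorem sjb_phi {J A : ℕ} (w : ℕ → ℤ) (hw : ∀ g ∈ Finset.Icc 1 J, |w g| ≤ (A : ℤ)) (l : ℕ) :
    |(phiJ J w).coeff l| ≤ (A : ℤ) := by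
  unfold phiJ
  rw [finsetSum_coeff]
  have h1 : ∀ g ∈ Finset.Icc 1 J, (C (w g) * X ^ (2 * g) : ℤ[X]).coeff l =
      if l = 2 * g then w g else 0 := by
    intro g _
    rw [coeff_C_mul, coeff_X_pow]
    split_ifs <;> simp
  rw [Finset.sum_congr rfl h1]
  by_cases h : ∃ g ∈ Finset.Icc 1 J, l = 2 * g
  · obtain ⟨g, hg, rfl⟩ := h
    rw [Finset.sum_eq_single g]
    · rw [if_pos rfl]
      exact hw g hg
    · intro b _ hb
      rw [if_neg]
      omega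
    · intro h
      exact absurd hg h
  · rw [Finset.sum_eq_zero]
    · simp
    · intro g hg
      rw [if_neg]
      intro hl
      exact h ⟨g, hg, hl⟩

private theorem hsb_arith {S N H T0 : ℕ} {k D T : ℤ} (hk : k ≤ T0) (hN : 1 ≤ N) (hD : 0 ≤ D)
    (hT : 0 ≤ T) : (S : ℤ) * k * (D * (4 * N * H * 2 ^ N) * T) ≤
      (S : ℤ) * T0 * (D * (4 * (N : ℤ) ^ 2 * H * 2 ^ N) * T) := by
  have h6 : (N : ℤ) ≤ (N : ℤ) ^ 2 := by
    have : (1 : ℤ) ≤ N := by exact_mod_cast hN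
    nlinarith
  have h9 : (4 * N * H * 2 ^ N : ℤ) ≤ 4 * (N : ℤ) ^ 2 * H * 2 ^ N := by
    have h10 : (0 : ℤ) ≤ 4 * (H : ℤ) * 2 ^ N := by positivity
    nlinarith [mul_le_mul_of_nonneg_right h6 h10]
  have h11 : (0 : ℤ) ≤ 4 * N * H * 2 ^ N := by positivity
  have h12 : (0 : ℤ) ≤ (S : ℤ) * T0 := by positivity
  exact mul_le_mul (mul_le_mul_of_nonneg_left hk (Int.natCast_nonneg _))
    (mul_le_mul_of_nonneg_right (mul_le_mul_of_nonneg_left h9 hD) hT)
    (mul_nonneg (mul_nonneg hD h11) hT) h12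

private theorem sJ_boundT {S N J H A T0 : ℕ} (c : ℕ × ℕ × ℕ → ℤ) (hc : ∀ x ∈ ix S N, |c x| ≤ (H : ℤ)) (w : ℕ → ℤ)
    (hw : ∀ g ∈ Finset.Icc 1 J, |w g| ≤ (A : ℤ)) {n k : ℕ} (hn : n < N) (hk : k < T0) :
    ∃ z : ℤ, (DJ N (T0 + S + 1) : ℤ) * (sJ S N J c w n).coeff k = (FN N : ℤ) * z ∧
      |z| ≤ ((A * E1 S N T0 * H : ℕ) : ℤ) := by
  set K := T0 + S + 1 with hK
  have hex : ∀ m i : ℕ, ∃ z : ℤ, m < S → i ≤ k →
      (DJ N K : ℤ) * (taylor (n : ℤ) (PJ N c m)).coeff i = (FN N : ℤ) * z ∧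
      |z| ≤ (DJ N K : ℤ) * (4 * N * H * 2 ^ N) := by
    intro m i
    by_cases h : m < S ∧ i ≤ k
    · obtain ⟨z, hz⟩ := sjb_int (K := K) c hc h.1 hn (show i ≤ K by omega)
      exact ⟨z, fun _ _ => hz⟩
    · exact ⟨0, fun h1 h2 => absurd ⟨h1, h2⟩ h⟩
  choose z hz using hex
  refine ⟨∑ m ∈ Finset.range S, ∑ x ∈ Finset.HasAntidiagonal.antidiagonal k,
    z m x.1 * (hasseDeriv m (phiJ J w)).coeff x.2, ?_, ?_⟩
  · unfold sJ
    rw [finsetSum_coeff, Finset.mul_sum, Finset.mul_sum]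
    refine Finset.sum_congr rfl fun m hm => ?_
    rw [coeff_mul, Finset.mul_sum, Finset.mul_sum]
    refine Finset.sum_congr rfl fun x hx => ?_
    have hx1 : x.1 ≤ k := by
      have := Finset.HasAntidiagonal.mem_antidiagonal.1 hx
      omega
    have := (hz m x.1 (Finset.mem_range.1 hm) hx1).1
    rw [← mul_assoc, this, mul_assoc]
  · obtain ⟨B, hB⟩ : ∃ B : ℤ, B = 4 ^ (T0 + S) := ⟨_, rfl⟩
    have hB0 : 0 ≤ B := by rw [hB]; positivity
    obtain ⟨M, hM⟩ : ∃ M : ℤ, M = (DJ N K : ℤ) * (4 * N * H * 2 ^ N) := ⟨_, rfl⟩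
    have hM0 : 0 ≤ M := by
      rw [hM]
      refine mul_nonneg (Int.natCast_nonneg _) ?_
      positivity
    have hterm : ∀ m ∈ Finset.range S, ∀ x ∈ Finset.HasAntidiagonal.antidiagonal k,
        |z m x.1 * (hasseDeriv m (phiJ J w)).coeff x.2| ≤ M * (B * A) := by
      intro m hm x hx
      rw [Finset.mem_range] at hm
      have hx0 := Finset.HasAntidiagonal.mem_antidiagonal.1 hx
      have hx1 : x.1 ≤ k := by omega
      have hx2 : x.2 ≤ k := by omega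
      have h1 : |z m x.1| ≤ M := by
        rw [hM]
        exact (hz m x.1 hm hx1).2
      have h2 : |(hasseDeriv m (phiJ J w)).coeff x.2| ≤ B * (A : ℤ) := by
        rw [hasseDeriv_coeff, abs_mul]
        have h3 : |(((x.2 + m).choose m : ℕ) : ℤ)| ≤ B := by
          rw [Nat.abs_cast, hB]
          have h4 : (x.2 + m).choose m ≤ 4 ^ (T0 + S) := by
            calc (x.2 + m).choose m ≤ 2 ^ (x.2 + m) := Nat.choose_le_two_pow _ _
              _ ≤ 2 ^ (T0 + S) := Nat.pow_le_pow_right (by norm_num) (by omega)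
              _ ≤ 4 ^ (T0 + S) := Nat.pow_le_pow_left (by norm_num) _
          exact_mod_cast h4
        exact mul_le_mul h3 (sjb_phi w hw _) (abs_nonneg _) hB0
      rw [abs_mul]
      exact mul_le_mul h1 h2 (abs_nonneg _) hM0
    have hN1 : 1 ≤ N := by omega
    calc |∑ m ∈ Finset.range S, ∑ x ∈ Finset.HasAntidiagonal.antidiagonal k,
        z m x.1 * (hasseDeriv m (phiJ J w)).coeff x.2|
        ≤ ∑ m ∈ Finset.range S, ∑ x ∈ Finset.HasAntidiagonal.antidiagonal k,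
        |z m x.1 * (hasseDeriv m (phiJ J w)).coeff x.2| := by
          refine (Finset.abs_sum_le_sum_abs _ _).trans (Finset.sum_le_sum fun m _ => ?_)
          exact Finset.abs_sum_le_sum_abs _ _
      _ ≤ ∑ _m ∈ Finset.range S, ∑ _x ∈ Finset.HasAntidiagonal.antidiagonal k,
          M * (B * A) :=
          Finset.sum_le_sum fun m hm => Finset.sum_le_sum fun x hx => hterm m hm x hx
      _ = (S : ℤ) * ((k + 1 : ℕ) : ℤ) * (M * (B * A)) := by
          rw [Finset.sum_const, Finset.sum_const, Finset.card_range,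
            Finset.Nat.card_antidiagonal, nsmul_eq_mul, nsmul_eq_mul, mul_assoc]
      _ ≤ (S : ℤ) * T0 * (((DJ N K : ℤ) * (4 * (N : ℤ) ^ 2 * H * 2 ^ N)) *
          (B * A)) := by
          rw [hM]
          exact hsb_arith (by exact_mod_cast hk) hN1 (Int.natCast_nonneg _) (mul_nonneg hB0 (Int.natCast_nonneg _))
      _ = ((A * E1 S N T0 * H : ℕ) : ℤ) := by
          unfold E1
          rw [hB]
          push_cast
          ring

theorem rH_bound {A S N T H : ℕ} (c : ℕ → ℕ × ℕ × ℕ → ℤ) (hc : ∀ a < A, ∀ x ∈ ix S N, |c a x| ≤ (H : ℤ))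
    (hreg : ∀ a < A, REG S N (c a)) {n k : ℕ} (hn : n < N) (hk : k < T) :
    ∃ z : ℤ, (DJ N (T + S + 1) : ℤ) * (rH A S N c n).coeff k = (FN N : ℤ) * z ∧
      |z| ≤ ((EH A S N T * H : ℕ) : ℤ) := by
  have h1 := sum_bound (A := A) (k := k) (F0 := FN N) (B := E1 S N T * H)
    (D := (DJ N (T + S + 1) : ℤ)) (fun a => rJ S N (c a) n) (fun a ha j hj =>
      rJ_boundT (c a) (hc a ha) (hreg a ha) hn (by omega))
  have h2 : A * (E1 S N T * H) = EH A S N T * H := by rw [EH_eq]; ring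
  rw [h2] at h1
  exact h1

theorem sH_bound {A S N J T H V : ℕ} (c : ℕ → ℕ × ℕ × ℕ → ℤ) (hc : ∀ a < A, ∀ x ∈ ix S N, |c a x| ≤ (H : ℤ))
    (w : ℕ → ℤ) (hw : ∀ g ∈ Finset.Icc 1 J, |w g| ≤ (V : ℤ)) {n k : ℕ} (hn : n < N) (hk : k < T) :
    ∃ z : ℤ, (DJ N (T + S + 1) : ℤ) * (sH A S N J c w n).coeff k = (FN N : ℤ) * z ∧
      |z| ≤ ((V * EH A S N T * H : ℕ) : ℤ) := by
  have h1 := sum_bound (A := A) (k := k) (F0 := FN N) (B := V * E1 S N T * H)
    (D := (DJ N (T + S + 1) : ℤ)) (fun a => sJ S N J (c a) w n) (fun a ha j hj =>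
      sJ_boundT (c a) (hc a ha) w hw hn (by omega))
  have h2 : A * (V * E1 S N T * H) = V * EH A S N T * H := by rw [EH_eq]; ring
  rw [h2] at h1
  exact h1

end MP_a3a416_nt.HJ
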