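import Pool.Agent.Lib.MP_a3a416_nt.HJ.ZeroG

/-!
# HJ-Zero
The zero estimate `hzero` for `L = (x+1)^(S+1)`, `Z_m = (-1)^m (m+1) (x+1)^(S-1-m)`: jets `h m n` with
`(n+1+t)^(m+2) (h_m(n+1) - h_m(n)) = (n+1) (-1)^m (m+1)`.
-/

namespace MP_a3a416_nt.HJ

open Polynomial BBZ MP_a3a416_nt.LJ

theorem hpoleHyp (S : ℕ) : PoleHyp S (zL S) (fun m => (X + C 1) * zA S m) := by
  intro c g hg
  set p : ℚ[X] := ∑ d ∈ Finset.range S, C (c d) * ((X + C 1) * zA S d) with hp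
  have hF : BBZ.sh g - g = algebraMap ℚ[X] (RatFunc ℚ) p / algebraMap ℚ[X] (RatFunc ℚ) (zL S) := by
    rw [hg, hp, map_sum, Finset.sum_div]
    refine Finset.sum_congr rfl (fun d _ => ?_)
    unfold qK
    rw [map_mul (algebraMap ℚ[X] (RatFunc ℚ)) (C (c d)), mul_div_assoc]
  -- far away point
  obtain ⟨M0, hM⟩ := BBZ.Reg.eventually (-1 : ℚ) g
  obtain ⟨M, hMM⟩ : ∃ M, M = M0 + 1 := ⟨_, rfl⟩
  obtain ⟨hM1, hM2⟩ := hM M (by omega)
  obtain ⟨x0, hx0⟩ : ∃ x0 : ℚ, x0 = -1 - M := ⟨_, rfl⟩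
  have hleft : BBZ.Reg x0 (BBZ.sh^[2 * M] g - g) := by
    rw [sub_eq_add_neg]
    refine BBZ.Reg.add (BBZ.Reg.iterate _ ?_) (BBZ.Reg.neg (hx0 ▸ hM2))
    have h1 : x0 + ((2 * M : ℕ) : ℚ) = -1 + M := by
      rw [hx0]; push_cast; ring
    rw [h1]
    exact hM1
  rw [tel_sh g _ hF (2 * M)] at hleft
  have hterm : ∀ j : ℕ, BBZ.sh^[j] (algebraMap ℚ[X] (RatFunc ℚ) p / algebraMap ℚ[X] (RatFunc ℚ) (zL S))
      = algebraMap ℚ[X] (RatFunc ℚ) (taylor (j : ℚ) p) /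
        (algebraMap ℚ[X] (RatFunc ℚ) (X - C (-1 - (j : ℚ)))) ^ (S + 1) := by
    intro j
    rw [← RingHom.coe_pow, map_div₀]
    simp only [RingHom.coe_pow, BBZ.sh_iterate]
    congr 1
    rw [← map_pow]
    congr 1
    unfold zL
    rw [taylor_pow, map_add, taylor_X, taylor_C]
    congr 1
    rw [C_sub, C_neg, C_1]
    ring
  have hother : ∀ j : ℕ, j ≠ M → BBZ.Reg x0 (BBZ.sh^[j]
      (algebraMap ℚ[X] (RatFunc ℚ) p / algebraMap ℚ[X] (RatFunc ℚ) (zL S))) := by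
    intro j hj
    rw [hterm, div_eq_mul_inv, ← map_pow]
    refine BBZ.Reg.mul (BBZ.Reg.poly _ _) (BBZ.Reg.inv ?_)
    rw [eval_pow, eval_sub, eval_X, eval_C, hx0]
    refine pow_ne_zero _ ?_
    have : (-1 - (M : ℚ) - (-1 - (j : ℚ))) = (j : ℚ) - M := by ring
    rw [this, sub_ne_zero]
    exact_mod_cast hj
  have hmain : BBZ.Reg x0 (BBZ.sh^[M]
      (algebraMap ℚ[X] (RatFunc ℚ) p / algebraMap ℚ[X] (RatFunc ℚ) (zL S))) := by
    have h1 : BBZ.sh^[M] (algebraMap ℚ[X] (RatFunc ℚ) p / algebraMap ℚ[X] (RatFunc ℚ) (zL S))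
        = (∑ j ∈ Finset.range (2 * M), BBZ.sh^[j]
            (algebraMap ℚ[X] (RatFunc ℚ) p / algebraMap ℚ[X] (RatFunc ℚ) (zL S)))
          + -(∑ j ∈ (Finset.range (2 * M)).erase M, BBZ.sh^[j]
            (algebraMap ℚ[X] (RatFunc ℚ) p / algebraMap ℚ[X] (RatFunc ℚ) (zL S))) := by
      rw [← Finset.add_sum_erase _ _ (Finset.mem_range.2 (by omega : M < 2 * M))]
      ring
    rw [h1]
    refine BBZ.Reg.add hleft (BBZ.Reg.neg (BBZ.Reg.sum _ _ (fun j hj => ?_)))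
    exact hother j (Finset.ne_of_mem_erase hj)
  rw [hterm M, ← hx0] at hmain
  have hdvd := pole_dvd hmain
  have hpdeg : p.natDegree ≤ S := by
    rw [hp]
    refine natDegree_sum_le_of_forall_le _ _ (fun d hd => ?_)
    refine (natDegree_C_mul_le _ _).trans (natDegree_mul_le.trans ?_)
    rw [natDegree_X_add_C]
    have := zA_natDegree' S d
    rw [Finset.mem_range] at hd
    omega
  have hp0 : p = 0 := by
    by_contra hne
    have h1 : taylor (M : ℚ) p ≠ 0 := fun h => hne (taylor_injective (M : ℚ) (by rw [h, map_zero]))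
    have h2 := natDegree_le_of_dvd hdvd h1
    rw [natDegree_pow, natDegree_X_sub_C, mul_one, natDegree_taylor] at h2
    omega
  intro m hm
  have h1 : taylor (-1 : ℚ) p = ∑ d ∈ Finset.range S,
      C (c d * ((-1) ^ d * ((d : ℚ) + 1))) * X ^ (1 + (S - 1 - d)) := by
    rw [hp, map_sum]
    refine Finset.sum_congr rfl (fun d _ => ?_)
    unfold zA
    have hX : taylor (-1 : ℚ) (X + C 1) = X := by
      rw [map_add, taylor_X, taylor_C, C_neg]
      ring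
    rw [taylor_mul, taylor_C, taylor_mul, taylor_mul, taylor_C, taylor_pow, hX]
    rw [C_mul (a := c d), pow_add, pow_one]
    ring
  rw [hp0, map_zero] at h1
  have h2 := congrArg (fun q : ℚ[X] => q.coeff (1 + (S - 1 - m))) h1
  simp only [coeff_zero, finsetSum_coeff, coeff_C_mul, coeff_X_pow] at h2
  rw [Finset.sum_eq_single m] at h2
  · rw [if_pos rfl, mul_one] at h2
    have h3 : ((-1 : ℚ) ^ m * ((m : ℚ) + 1)) ≠ 0 := by
      refine mul_ne_zero (pow_ne_zero _ (by norm_num)) (by positivity)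
    rcases mul_eq_zero.1 h2.symm with h4 | h4
    · exact h4
    · exact absurd h4 h3
  · intro d hd hdm
    rw [Finset.mem_range] at hd
    rw [if_neg (by omega), mul_zero]
  · intro h
    exact absurd (Finset.mem_range.2 hm) h

/-- ZERO ESTIMATE for `∑_{a<A} ∑_{m<S} P_{a,m}(n+t) t^a h_m(n)`. -/
theorem zeroEstH (A S N T D : ℕ) (h : ℕ → ℕ → PowerSeries ℚ)
    (hh : ∀ m < S, ∀ n : ℕ, (PowerSeries.X + PowerSeries.C ((n : ℚ) + 1)) ^ (m + 2) * (h m (n + 1) - h m n) =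
      PowerSeries.C (((n : ℚ) + 1) * ((-1) ^ m * ((m : ℚ) + 1))))
    (P : ℕ → ℕ → ℚ[X]) (hdeg : ∀ a < A, ∀ m < S, (P a m).natDegree < D)
    (hne : ∃ a < A, ∃ m < S, P a m ≠ 0)
    (hz : ∀ n < N, (PowerSeries.X : PowerSeries ℚ) ^ T ∣
      ∑ a ∈ Finset.range A, ∑ m ∈ Finset.range S,
        ((taylor (n : ℚ) (P a m) : ℚ[X]) : PowerSeries ℚ) * PowerSeries.X ^ a * h m n) :
    (N - (A * S + A + 1)) * (T - A) ≤ (A * S + A + 1) * D + (A * S + A + 1) ^ 2 * (S + 1) := by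
  refine hzero A S (zL S) (zA S) N T D (S + 1) (zL_ne_zero S) (zL_natDegree S)
    (fun m hm => by have := zA_natDegree' S m; omega) (hpoleHyp S) h ?_ P hdeg hne hz
  intro m hm n
  have h1 := hh m hm n
  have hcoe : ((X + C ((n : ℚ) + 1) : ℚ[X]) : PowerSeries ℚ)
      = PowerSeries.X + PowerSeries.C ((n : ℚ) + 1) := by
    rw [Polynomial.coe_add, Polynomial.coe_X, Polynomial.coe_C]
  have htX : taylor (n : ℚ) (X + C 1 : ℚ[X]) = X + C ((n : ℚ) + 1) := by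
    rw [map_add, taylor_X, taylor_C, C_add]
    ring
  have hL : ((taylor (n : ℚ) (zL S) : ℚ[X]) : PowerSeries ℚ)
      = ((X + C ((n : ℚ) + 1) : ℚ[X]) : PowerSeries ℚ) ^ (S - 1 - m) *
        ((X + C ((n : ℚ) + 1) : ℚ[X]) : PowerSeries ℚ) ^ (m + 2) := by
    unfold zL
    rw [taylor_pow, htX, Polynomial.coe_pow, ← pow_add]
    congr 1
    omega
  have hA : taylor (n : ℚ) (zA S m) = C ((-1) ^ m * ((m : ℚ) + 1)) * (X + C ((n : ℚ) + 1)) ^ (S - 1 - m) := by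
    unfold zA
    rw [taylor_mul, taylor_C, taylor_pow, htX]
  rw [hL, hA, mul_assoc, hcoe, h1, ← hcoe, htX]
  rw [Polynomial.coe_mul, Polynomial.coe_pow, Polynomial.coe_C, hcoe]
  rw [map_mul (PowerSeries.C (R := ℚ)) ((n : ℚ) + 1)]
  ring

/-- the form used in `HJ.NotSpan` -/
theorem zeroEst (A S N T D M : ℕ) (hM : M = A * S + A + 1) (h : ℕ → ℕ → PowerSeries ℚ)
    (hh : ∀ m < S, ∀ n : ℕ, (PowerSeries.X + PowerSeries.C ((n : ℚ) + 1)) ^ (m + 2) * (h m (n + 1) - h m n) =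
      PowerSeries.C (((n : ℚ) + 1) * ((-1) ^ m * ((m : ℚ) + 1))))
    (P : ℕ → ℕ → ℚ[X]) (hdeg : ∀ a < A, ∀ m < S, (P a m).natDegree < D) (hne : ∃ a < A, ∃ m < S, P a m ≠ 0)
    (hz : ∀ n < N, (PowerSeries.X : PowerSeries ℚ) ^ T ∣
      ∑ a ∈ Finset.range A, PowerSeries.X ^ a * ∑ m ∈ Finset.range S,
        ((taylor (n : ℚ) (P a m) : ℚ[X]) : PowerSeries ℚ) * h m n) :
    (N - M) * (T - A) ≤ M * D + M ^ 2 * (S + 1) := by
  subst hM
  refine zeroEstH A S N T D h hh P hdeg hne (fun n hn => ?_)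
  have h1 : ∑ a ∈ Finset.range A, ∑ m ∈ Finset.range S,
        ((taylor (n : ℚ) (P a m) : ℚ[X]) : PowerSeries ℚ) * PowerSeries.X ^ a * h m n
      = ∑ a ∈ Finset.range A, PowerSeries.X ^ a * ∑ m ∈ Finset.range S,
        ((taylor (n : ℚ) (P a m) : ℚ[X]) : PowerSeries ℚ) * h m n := by
    refine Finset.sum_congr rfl (fun a _ => ?_)
    rw [Finset.mul_sum]
    refine Finset.sum_congr rfl (fun m _ => ?_)
    ring
  rw [h1]
  exact hz n hn

end MP_a3a416_nt.HJ
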