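import Pool.Agent.Lib.MP_a3a416_nt.LJ.NotSpan
import Pool.Agent.Lib.MP_a3a416_nt.HJ.Defs
import Pool.Agent.Lib.MP_a3a416_nt.HJ.Zero

/-!
# HJ-NotSpan
PROOF.  As `LJ.not_in_span` with `HJ.zeroEst`, `T = TH A S = 5M + A`, `D = 4N`: `(N - M) 5M ≤ 4MN + M²(S+1)`, i.e. `N ≤ M(S+6)`, contradiction.
-/

namespace MP_a3a416_nt.HJ

open Polynomial MP_a3a416_nt.BB MP_a3a416_nt.LJ

private theorem coeff_hD (m : ℕ) (f : PowerSeries ℚ) (k : ℕ) :
    PowerSeries.coeff k (hD m f) = ((k + m).choose m : ℚ) * PowerSeries.coeff (k + m) f := by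
  unfold hD
  rw [PowerSeries.coeff_mk]

private theorem hD_sub' (m : ℕ) (f g : PowerSeries ℚ) : hD m (f - g) = hD m f - hD m g := by
  ext k
  rw [map_sub, coeff_hD, coeff_hD, coeff_hD, map_sub, mul_sub]

private theorem hD_smul' (m : ℕ) (a : ℚ) (f : PowerSeries ℚ) :
    hD m (PowerSeries.C a * f) = PowerSeries.C a * hD m f := by
  ext k
  rw [PowerSeries.coeff_C_mul, coeff_hD, coeff_hD, PowerSeries.coeff_C_mul]
  ring

private theorem hD_sum' {ι : Type*} (m : ℕ) (s : Finset ι) (f : ι → PowerSeries ℚ) :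
    hD m (∑ i ∈ s, f i) = ∑ i ∈ s, hD m (f i) := by
  ext k
  rw [coeff_hD, map_sum, map_sum, Finset.mul_sum]
  exact Finset.sum_congr rfl (fun i _ => (coeff_hD m (f i) k).symm)

private theorem hD_poly (m : ℕ) (f : ℤ[X]) : hD m (toPS f) = toPS (hasseDeriv m f) := by
  ext k
  rw [coeff_hD, toPS_apply, toPS_apply, Polynomial.coeff_coe, Polynomial.coeff_coe, coeff_map,
    coeff_map, hasseDeriv_coeff]
  simp

private theorem toPS_taylor (n : ℕ) (P : ℤ[X]) :
    ((taylor (n : ℚ) (P.map (Int.castRingHom ℚ)) : ℚ[X]) : PowerSeries ℚ) = toPS (taylor (n : ℤ) P) := by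
  rw [toPS_apply, Polynomial.map_taylor]
  simp

private theorem toPS_X_pow (a : ℕ) : toPS ((X : ℤ[X]) ^ a) = (PowerSeries.X : PowerSeries ℚ) ^ a := by
  rw [toPS_apply]
  simp

private theorem numeric_nh {M S N : ℕ} (hM : 1 ≤ M) (hN : M * (S + 6) < N) :
    M * (4 * N) + M ^ 2 * (S + 1) < (N - M) * (5 * M) := by
  have h1 : M ≤ N := by nlinarith [Nat.zero_le (M * S)]
  obtain ⟨K, rfl⟩ : ∃ K, N = K + M := ⟨N - M, by omega⟩
  rw [Nat.add_sub_cancel]
  have h2 : M * (S + 5) < K := by nlinarith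
  have h3 : M * (M * (S + 5)) < M * K := Nat.mul_lt_mul_of_pos_left h2 (by omega)
  nlinarith

theorem not_in_span {A S N J r : ℕ} (hA : 1 ≤ A) (hS : 1 ≤ S) (hN : (A * S + A + 1) * (S + 6) < N)
    (c : ℕ → ℕ × ℕ × ℕ → ℤ)
    (hc : ∃ a < A, ∃ x ∈ ix S N, c a x ≠ 0) (hreg : ∀ a < A, REG S N (c a)) (v : ℕ → ℕ → ℤ) (μ : ℕ → ℚ) :
    ¬ ∀ n < N, ∀ k < TH A S,
      (((rH A S N c n - sH A S N J c (v 0) n).coeff k : ℤ) : ℚ) =
        ∑ l ∈ Finset.range r, μ l * (((sH A S N J c (v (l+1)) n).coeff k : ℤ) : ℚ) := by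
  intro hcon
  have hN1 : 1 ≤ N := by omega
  have hinj : Function.Injective (Int.castRingHom ℚ) := Int.cast_injective
  set φ : PowerSeries ℚ := toPS (phiJ J (v 0)) +
    ∑ l ∈ Finset.range r, PowerSeries.C (μ l) * toPS (phiJ J (v (l + 1))) with hφ
  have hhφ : ∀ m, hD m φ = toPS (hasseDeriv m (phiJ J (v 0))) +
      ∑ l ∈ Finset.range r, PowerSeries.C (μ l) * toPS (hasseDeriv m (phiJ J (v (l + 1)))) := by
    intro m
    have h0 : hD m φ = hD m (toPS (phiJ J (v 0))) + hD m (∑ l ∈ Finset.range r,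
        PowerSeries.C (μ l) * toPS (phiJ J (v (l + 1)))) := by rw [hφ, hD_add]
    rw [h0, hD_sum', hD_poly]
    congr 1
    exact Finset.sum_congr rfl (fun l _ => by rw [hD_smul', hD_poly])
  have hsJ : ∀ (a : ℕ) (w : ℕ → ℤ) (n : ℕ), toPS (sJ S N J (c a) w n) =
      ∑ m ∈ Finset.range S, toPS (taylor (n : ℤ) (PJ N (c a) m)) * toPS (hasseDeriv m (phiJ J w)) := by
    intro a w n
    unfold sJ
    rw [map_sum]
    exact Finset.sum_congr rfl (fun m _ => map_mul _ _ _)
  have hsH : ∀ (w : ℕ → ℤ) (n : ℕ), toPS (sH A S N J c w n) =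
      ∑ a ∈ Finset.range A, PowerSeries.X ^ a * toPS (sJ S N J (c a) w n) := by
    intro w n
    unfold sH
    rw [map_sum]
    exact Finset.sum_congr rfl (fun a _ => by rw [map_mul, toPS_X_pow])
  have hrH : ∀ (n : ℕ), toPS (rH A S N c n) =
      ∑ a ∈ Finset.range A, PowerSeries.X ^ a * toPS (rJ S N (c a) n) := by
    intro n
    unfold rH
    rw [map_sum]
    exact Finset.sum_congr rfl (fun a _ => by rw [map_mul, toPS_X_pow])
  have h := zeroEst A S N (TH A S) (4 * N) (A * S + A + 1) rfl (fun m n => hD m (vser 1 n - φ))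
    (by
      intro m _ n
      have e1 : hD m (vser 1 (n + 1) - φ) - hD m (vser 1 n - φ) = hD m (jet 1 (n + 1)) := by
        have h1 := vser_succ_sub 1 n
        rw [Finset.Icc_self, Finset.sum_singleton, one_mul] at h1
        rw [← h1, ← hD_sub']
        congr 1
        ring
      show (PowerSeries.X + PowerSeries.C ((n : ℚ) + 1)) ^ (m + 2) *
        (hD m (vser 1 (n + 1) - φ) - hD m (vser 1 n - φ)) = _
      rw [e1]
      have h2 := hD_jet m (b := n + 1) (by omega)
      push_cast at h2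
      exact h2)
    (fun a m => (PJ N (c a) m).map (Int.castRingHom ℚ))
    (fun a _ m _ => lt_of_le_of_lt natDegree_map_le (natDegree_PJ_lt hN1 (c a) m))
    (by
      obtain ⟨a, ha, hx⟩ := hc
      obtain ⟨m, hm, hne⟩ := exists_PJ_ne_zero (c a) hx
      exact ⟨a, ha, m, hm, (Polynomial.map_ne_zero_iff hinj).2 hne⟩)
    (by
      intro n hn
      have e2 : ∀ a < A, ∑ m ∈ Finset.range S,
          ((taylor (n : ℚ) ((PJ N (c a) m).map (Int.castRingHom ℚ)) : ℚ[X]) : PowerSeries ℚ) *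
            hD m (vser 1 n - φ) =
          toPS (rJ S N (c a) n) - (toPS (sJ S N J (c a) (v 0) n) +
            ∑ l ∈ Finset.range r, PowerSeries.C (μ l) * toPS (sJ S N J (c a) (v (l + 1)) n)) := by
        intro a ha
        have h1 := rJ_series (c a) (hreg a ha) hn.le
        rw [← toPS_apply] at h1
        rw [h1, hsJ]
        simp only [hsJ]
        simp only [Finset.mul_sum]
        rw [Finset.sum_comm (s := Finset.range r), ← Finset.sum_add_distrib, ← Finset.sum_sub_distrib]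
        refine Finset.sum_congr rfl (fun m _ => ?_)
        rw [hD_sub', hhφ, toPS_taylor, mul_sub, mul_add, Finset.mul_sum]
        congr 2
        exact Finset.sum_congr rfl (fun l _ => by ring)
      have e3 : ∑ a ∈ Finset.range A, (PowerSeries.X : PowerSeries ℚ) ^ a * ∑ m ∈ Finset.range S,
          ((taylor (n : ℚ) ((PJ N (c a) m).map (Int.castRingHom ℚ)) : ℚ[X]) : PowerSeries ℚ) *
            hD m (vser 1 n - φ) =
          toPS (rH A S N c n) - (toPS (sH A S N J c (v 0) n) +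
            ∑ l ∈ Finset.range r, PowerSeries.C (μ l) * toPS (sH A S N J c (v (l + 1)) n)) := by
        rw [hrH, hsH]
        simp only [hsH]
        simp only [Finset.mul_sum]
        rw [Finset.sum_comm (s := Finset.range r), ← Finset.sum_add_distrib, ← Finset.sum_sub_distrib]
        refine Finset.sum_congr rfl (fun a ha => ?_)
        have h5 := e2 a (Finset.mem_range.1 ha)
        rw [← Finset.mul_sum, h5, mul_sub, mul_add, Finset.mul_sum]
        congr 2
        exact Finset.sum_congr rfl (fun l _ => by ring)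
      show (PowerSeries.X : PowerSeries ℚ) ^ (TH A S) ∣ ∑ a ∈ Finset.range A,
          (PowerSeries.X : PowerSeries ℚ) ^ a * ∑ m ∈ Finset.range S,
          ((taylor (n : ℚ) ((PJ N (c a) m).map (Int.castRingHom ℚ)) : ℚ[X]) : PowerSeries ℚ) *
            hD m (vser 1 n - φ)
      rw [e3, PowerSeries.X_pow_dvd_iff]
      intro k hk
      have h3 := hcon n hn k hk
      have hcf : ∀ P : ℤ[X], PowerSeries.coeff k (toPS P) = ((P.coeff k : ℤ) : ℚ) := by
        intro P
        rw [toPS_apply, Polynomial.coeff_coe, coeff_map]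
        rfl
      rw [map_sub, map_add, map_sum, hcf, hcf]
      have h4 : ∀ l ∈ Finset.range r, PowerSeries.coeff k (PowerSeries.C (μ l) *
          toPS (sH A S N J c (v (l + 1)) n)) = μ l * (((sH A S N J c (v (l+1)) n).coeff k : ℤ) : ℚ) := by
        intro l _
        rw [PowerSeries.coeff_C_mul, hcf]
      rw [Finset.sum_congr rfl h4, ← h3, coeff_sub]
      push_cast
      ring)
  have hT : TH A S - A = 5 * (A * S + A + 1) := by
    unfold TH
    omega
  rw [hT] at h
  have h2 := numeric_nh (M := A * S + A + 1) (by omega) hN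
  omega

end MP_a3a416_nt.HJ
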