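import Pool.Agent.Lib.MP_a3a416_nt.LJ.Zero

/-!
# HJ-ZeroG
Zero estimate for the functions `t^a h_m` (`a < A`, `m < S`) and `t^a` (`a ≤ A`), where `t` is the local variable at the node
`n`, `x = n + t`, and `L(n+t) (h_m(n+1) - h_m(n)) = ((x+1) - t) Z_m(x)`.

Vectors are indexed by `Jx A S = Fin (A+1) ⊕ (Fin A × Fin S)`; `F_n(P) = ∑_{a≤A} P_a(n+t) t^a + ∑_{a,m} P_{a,m}(n+t) t^a h_m(n)`.
`t` is invariant under the shift `x ↦ x+1`, so `Φ(P)_{a,m} = sP_{a,m}` and
`Φ(P)_a = sP_a + ∑_m sP_{a,m} (x+1) Z_m/L - ∑_m sP_{a-1,m} Z_m/L`.  A `Φ`-stable subspace contains a non-zero vector which is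
supported on `Fin (A+1)` and has constant coordinates.
-/

namespace MP_a3a416_nt.HJ

open Polynomial BBZ MP_a3a416_nt.LJ

/-- index set of the vectors -/
abbrev Jx (A S : ℕ) : Type := Fin (A + 1) ⊕ (Fin A × Fin S)

/-- extension of a vector by zero: the coordinate `(a, m)` for natural numbers `a, m` -/
def ext2 {M : Type*} [Zero M] {A S : ℕ} (P : Jx A S → M) (a : ℕ) (m : Fin S) : M :=
  if h : a < A then P (Sum.inr (⟨a, h⟩, m)) else 0

/-- the coordinate `(a-1, m)` -/
def prev2 {M : Type*} [Zero M] {A S : ℕ} (P : Jx A S → M) (a : ℕ) (m : Fin S) : M :=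
  if a = 0 then 0 else ext2 P (a - 1) m

/-- the difference operator on polynomial vectors -/
noncomputable def htau (A S : ℕ) (L : ℚ[X]) (Z : ℕ → ℚ[X]) (P : Jx A S → ℚ[X]) : Jx A S → ℚ[X] :=
  Sum.elim
    (fun a => L * taylor 1 (P (Sum.inl a))
      + ∑ m : Fin S, taylor 1 (ext2 P a m) * ((X + C 1) * Z m)
      - ∑ m : Fin S, taylor 1 (prev2 P a m) * Z m)
    (fun i => L * taylor 1 (P (Sum.inr i)))

/-- the jet at `n` of the function attached to the vector `P` -/
noncomputable def GF (A S : ℕ) (h : ℕ → ℕ → PowerSeries ℚ) (n : ℕ) (P : Jx A S → ℚ[X]) :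
    PowerSeries ℚ :=
  (∑ a : Fin (A + 1), ((taylor (n : ℚ) (P (Sum.inl a)) : ℚ[X]) : PowerSeries ℚ) * PowerSeries.X ^ (a : ℕ))
    + ∑ a : Fin A, ∑ m : Fin S,
      ((taylor (n : ℚ) (P (Sum.inr (a, m))) : ℚ[X]) : PowerSeries ℚ) * PowerSeries.X ^ (a : ℕ) * h m n

/-- the difference equation of the jets -/
def hHv (S : ℕ) (L : ℚ[X]) (Z : ℕ → ℚ[X]) (h : ℕ → ℕ → PowerSeries ℚ) : Prop :=
  ∀ m < S, ∀ n : ℕ,
    ((taylor (n : ℚ) L : ℚ[X]) : PowerSeries ℚ) * (h m (n + 1) - h m n)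
      = (((taylor (n : ℚ) (X + C 1) : ℚ[X]) : PowerSeries ℚ) - PowerSeries.X) *
        ((taylor (n : ℚ) (Z m) : ℚ[X]) : PowerSeries ℚ)

/-- the semilinear operator `Φ = L⁻¹ τ` on `ℚ(x)`-vectors -/
noncomputable def hPhi (A S : ℕ) (L : ℚ[X]) (Z : ℕ → ℚ[X]) (w : Jx A S → RatFunc ℚ) : Jx A S → RatFunc ℚ :=
  Sum.elim
    (fun a => sh (w (Sum.inl a))
      + ∑ m : Fin S, sh (ext2 w a m) * qK L ((X + C 1) * Z m)
      - ∑ m : Fin S, sh (prev2 w a m) * qK L (Z m))
    (fun i => sh (w (Sum.inr i)))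

/-- polynomial vectors as vectors of rational functions -/
noncomputable def toL {A S : ℕ} (P : Jx A S → ℚ[X]) : Jx A S → RatFunc ℚ :=
  fun i => algebraMap ℚ[X] (RatFunc ℚ) (P i)

section basic

variable {M M' : Type*} [AddCommGroup M] [AddCommGroup M'] {A S : ℕ}

theorem ext2_map (f : M →+ M') (P : Jx A S → M) (a : ℕ) (m : Fin S) :
    ext2 (fun i => f (P i)) a m = f (ext2 P a m) := by
  unfold ext2
  split_ifs
  · rfl
  · rw [map_zero]

theorem prev2_map (f : M →+ M') (P : Jx A S → M) (a : ℕ) (m : Fin S) :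
    prev2 (fun i => f (P i)) a m = f (prev2 P a m) := by
  unfold prev2
  split_ifs
  · rw [map_zero]
  · exact ext2_map f P _ m

theorem ext2_add (P Q : Jx A S → M) (a : ℕ) (m : Fin S) :
    ext2 (P + Q) a m = ext2 P a m + ext2 Q a m := by
  unfold ext2
  split_ifs
  · rfl
  · rw [add_zero]

theorem prev2_add (P Q : Jx A S → M) (a : ℕ) (m : Fin S) :
    prev2 (P + Q) a m = prev2 P a m + prev2 Q a m := by
  unfold prev2
  split_ifs
  · rw [add_zero]
  · exact ext2_add P Q _ m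

theorem ext2_smul {K : Type*} [Field K] (c : K) (P : Jx A S → K) (a : ℕ) (m : Fin S) :
    ext2 (c • P) a m = c * ext2 P a m := by
  unfold ext2
  split_ifs
  · rfl
  · rw [mul_zero]

theorem prev2_smul {K : Type*} [Field K] (c : K) (P : Jx A S → K) (a : ℕ) (m : Fin S) :
    prev2 (c • P) a m = c * prev2 P a m := by
  unfold prev2
  split_ifs
  · rw [mul_zero]
  · exact ext2_smul c P _ m

end basic

variable (A S : ℕ) (L : ℚ[X]) (Z : ℕ → ℚ[X])

private theorem hTau_taylor (n : ℕ) (p : ℚ[X]) :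
    taylor (n : ℚ) (taylor 1 p) = taylor ((n + 1 : ℕ) : ℚ) p := by
  rw [taylor_taylor]
  push_cast
  rfl

/-- reorganisation of the coordinates `(a, m)` -/
private theorem sum_ext2 (f : ℕ → Fin A × Fin S → PowerSeries ℚ) :
    ∑ a : Fin (A + 1), ∑ m : Fin S, (if h : (a : ℕ) < A then f a (⟨a, h⟩, m) else 0)
      = ∑ a : Fin A, ∑ m : Fin S, f a (a, m) := by
  rw [Fin.sum_univ_castSucc]
  have h1 : ∑ m : Fin S, (if h : ((Fin.last A : Fin (A + 1)) : ℕ) < A then
      f (Fin.last A : Fin (A + 1)) (⟨(Fin.last A : Fin (A + 1)), h⟩, m) else 0) = 0 := by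
    refine Finset.sum_eq_zero fun m _ => ?_
    rw [dif_neg (by simp)]
  rw [h1, add_zero]
  refine Finset.sum_congr rfl fun a _ => Finset.sum_congr rfl fun m _ => ?_
  rw [dif_pos (by simp)]
  rfl

private theorem sum_prev2 (f : ℕ → Fin A × Fin S → PowerSeries ℚ) :
    ∑ a : Fin (A + 1), ∑ m : Fin S, (if (a : ℕ) = 0 then 0 else
        if h : (a : ℕ) - 1 < A then f a (⟨(a : ℕ) - 1, h⟩, m) else 0)
      = ∑ a : Fin A, ∑ m : Fin S, f (a + 1) (a, m) := by
  rw [Fin.sum_univ_succ]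
  have h1 : ∑ m : Fin S, (if ((0 : Fin (A + 1)) : ℕ) = 0 then (0 : PowerSeries ℚ) else
        if h : ((0 : Fin (A + 1)) : ℕ) - 1 < A then f (0 : Fin (A + 1)) (⟨((0 : Fin (A + 1)) : ℕ) - 1, h⟩, m) else 0) = 0 := by
    refine Finset.sum_eq_zero fun m _ => ?_
    rw [if_pos (by simp)]
  rw [h1, zero_add]
  refine Finset.sum_congr rfl fun a _ => Finset.sum_congr rfl fun m _ => ?_
  rw [if_neg (by simp), dif_pos (by simp)]
  simp

theorem GF_tau (h : ℕ → ℕ → PowerSeries ℚ) (hv : hHv S L Z h) (n : ℕ) (P : Jx A S → ℚ[X]) :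
    GF A S h n (htau A S L Z P) = ((taylor (n : ℚ) L : ℚ[X]) : PowerSeries ℚ) * GF A S h (n + 1) P := by
  -- abbreviations
  set c : ℚ[X] → PowerSeries ℚ := fun p => ((taylor (n : ℚ) p : ℚ[X]) : PowerSeries ℚ) with hc
  have cmul : ∀ p q, c (p * q) = c p * c q := fun p q => by
    simp only [hc, taylor_mul, Polynomial.coe_mul]
  have cadd : ∀ p q, c (p + q) = c p + c q := fun p q => by
    simp only [hc, map_add, Polynomial.coe_add]
  have csub : ∀ p q, c (p - q) = c p - c q := fun p q => by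
    simp only [hc, map_sub, Polynomial.coe_sub]
  have csum : ∀ f : Fin S → ℚ[X], c (∑ m, f m) = ∑ m, c (f m) := fun f => by
    simp only [hc, map_sum]
    exact map_sum (Polynomial.coeToPowerSeries.ringHom (R := ℚ)) (fun m => taylor (n : ℚ) (f m)) Finset.univ
  have c1 : ∀ p, c (taylor 1 p) = ((taylor ((n + 1 : ℕ) : ℚ) p : ℚ[X]) : PowerSeries ℚ) := fun p => by
    simp only [hc, hTau_taylor]
  have c0 : c (taylor 1 0) = 0 := by simp [hc]
  have e1 : GF A S h n (htau A S L Z P) =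
      ∑ a : Fin (A + 1), c L * c (taylor 1 (P (Sum.inl a))) * PowerSeries.X ^ (a : ℕ)
      + ∑ a : Fin (A + 1), ∑ m : Fin S, (if h' : (a : ℕ) < A then
          (fun (b : ℕ) (i : Fin A × Fin S) => c (taylor 1 (P (Sum.inr i))) * (c (X + C 1) * c (Z i.2)) * PowerSeries.X ^ b) a (⟨a, h'⟩, m) else 0)
      - ∑ a : Fin (A + 1), ∑ m : Fin S, (if (a : ℕ) = 0 then 0 else if h' : (a : ℕ) - 1 < A then
          (fun (b : ℕ) (i : Fin A × Fin S) => c (taylor 1 (P (Sum.inr i))) * c (Z i.2) * PowerSeries.X ^ b) a (⟨(a : ℕ) - 1, h'⟩, m) else 0)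
      + ∑ a : Fin A, ∑ m : Fin S, c L * c (taylor 1 (P (Sum.inr (a, m)))) * PowerSeries.X ^ (a : ℕ) * h m n := by
    have e2 : ∀ a : Fin (A + 1), c (htau A S L Z P (Sum.inl a)) * PowerSeries.X ^ (a : ℕ) =
        c L * c (taylor 1 (P (Sum.inl a))) * PowerSeries.X ^ (a : ℕ)
        + ∑ m : Fin S, (if h' : (a : ℕ) < A then
          (fun (b : ℕ) (i : Fin A × Fin S) => c (taylor 1 (P (Sum.inr i))) * (c (X + C 1) * c (Z i.2)) * PowerSeries.X ^ b) a (⟨a, h'⟩, m) else 0)
        - ∑ m : Fin S, (if (a : ℕ) = 0 then 0 else if h' : (a : ℕ) - 1 < A then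
          (fun (b : ℕ) (i : Fin A × Fin S) => c (taylor 1 (P (Sum.inr i))) * c (Z i.2) * PowerSeries.X ^ b) a (⟨(a : ℕ) - 1, h'⟩, m) else 0) := by
      intro a
      simp only [htau, Sum.elim_inl]
      rw [csub, cadd, cmul, csum, csum, sub_mul, add_mul, Finset.sum_mul, Finset.sum_mul]
      congr 1
      · congr 1
        refine Finset.sum_congr rfl fun m _ => ?_
        unfold ext2
        split_ifs with h'
        · rw [cmul, cmul]
        · rw [cmul, c0, zero_mul, zero_mul]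
      · refine Finset.sum_congr rfl fun m _ => ?_
        unfold prev2 ext2
        split_ifs with h' h''
        · rw [cmul, c0, zero_mul, zero_mul]
        · rw [cmul]
        · rw [cmul, c0, zero_mul, zero_mul]
    have e3 : GF A S h n (htau A S L Z P) =
        (∑ a : Fin (A + 1), c (htau A S L Z P (Sum.inl a)) * PowerSeries.X ^ (a : ℕ))
        + ∑ a : Fin A, ∑ m : Fin S, c (htau A S L Z P (Sum.inr (a, m))) * PowerSeries.X ^ (a : ℕ) * h m n := rfl
    rw [e3, Finset.sum_congr (rfl : (Finset.univ : Finset (Fin (A + 1))) = Finset.univ) (fun a _ => e2 a),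
      Finset.sum_sub_distrib, Finset.sum_add_distrib]
    congr 1
    refine Finset.sum_congr rfl fun a _ => Finset.sum_congr rfl fun m _ => ?_
    simp only [htau, Sum.elim_inr]
    rw [cmul]
  have s1 := sum_ext2 A S (fun (b : ℕ) (i : Fin A × Fin S) =>
    c (taylor 1 (P (Sum.inr i))) * (c (X + C 1) * c (Z i.2)) * PowerSeries.X ^ b)
  have s2 := sum_prev2 A S (fun (b : ℕ) (i : Fin A × Fin S) =>
    c (taylor 1 (P (Sum.inr i))) * c (Z i.2) * PowerSeries.X ^ b)
  rw [e1, s1, s2]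
  unfold GF
  rw [mul_add, Finset.mul_sum, Finset.mul_sum, add_sub_assoc, add_assoc]
  congr 1
  · refine Finset.sum_congr rfl fun a _ => ?_
    rw [c1]
    ring
  · rw [← Finset.sum_sub_distrib, ← Finset.sum_add_distrib]
    refine Finset.sum_congr rfl fun a _ => ?_
    rw [← Finset.sum_sub_distrib, ← Finset.sum_add_distrib, Finset.mul_sum]
    refine Finset.sum_congr rfl fun m _ => ?_
    have h2 := hv m m.isLt n
    rw [← c1]
    change c L * (h m (n + 1) - h m n) = (c (X + C 1) - PowerSeries.X) * c (Z m) at h2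
    change c (taylor 1 (P (Sum.inr (a, m)))) * (c (X + C 1) * c (Z m)) * PowerSeries.X ^ (a : ℕ)
      - c (taylor 1 (P (Sum.inr (a, m)))) * c (Z m) * PowerSeries.X ^ ((a : ℕ) + 1)
      + c L * c (taylor 1 (P (Sum.inr (a, m)))) * PowerSeries.X ^ (a : ℕ) * h m n
      = c L * (c (taylor 1 (P (Sum.inr (a, m)))) * PowerSeries.X ^ (a : ℕ) * h m (n + 1))
    rw [pow_succ]
    linear_combination (-(c (taylor 1 (P (Sum.inr (a, m)))) * PowerSeries.X ^ (a : ℕ))) * h2

/-- the iterates vanish too, at one point less each time -/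
theorem GF_iterate (h : ℕ → ℕ → PowerSeries ℚ) (hv : hHv S L Z h) (P : Jx A S → ℚ[X]) (N T : ℕ)
    (hz : ∀ n < N, PowerSeries.X ^ T ∣ GF A S h n P) (j n : ℕ) (hn : n + j < N) :
    PowerSeries.X ^ T ∣ GF A S h n ((htau A S L Z)^[j] P) := by
  induction j generalizing n with
  | zero => exact hz n (by omega)
  | succ j ih =>
    rw [Function.iterate_succ_apply', GF_tau A S L Z h hv]
    exact Dvd.dvd.mul_left (ih (n + 1) (by omega)) _

theorem ext2_natDegree {A S : ℕ} {D : ℕ} (P : Jx A S → ℚ[X]) (hP : ∀ i, (P i).natDegree ≤ D) (a : ℕ)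
    (m : Fin S) : (ext2 P a m).natDegree ≤ D := by
  unfold ext2
  split_ifs
  · exact hP _
  · simp

theorem prev2_natDegree {A S : ℕ} {D : ℕ} (P : Jx A S → ℚ[X]) (hP : ∀ i, (P i).natDegree ≤ D) (a : ℕ)
    (m : Fin S) : (prev2 P a m).natDegree ≤ D := by
  unfold prev2
  split_ifs
  · simp
  · exact ext2_natDegree P hP _ m

private theorem hTau_deg (D ℓ : ℕ) (hL : L.natDegree ≤ ℓ) (hZ : ∀ m < S, (Z m).natDegree + 1 ≤ ℓ)
    (P : Jx A S → ℚ[X]) (hP : ∀ i, (P i).natDegree ≤ D) (i : Jx A S) :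
    (htau A S L Z P i).natDegree ≤ D + ℓ := by
  have hT : ∀ p : ℚ[X], p.natDegree ≤ D → (taylor 1 p).natDegree ≤ D := fun p hp => by
    rw [natDegree_taylor]
    exact hp
  have h1 : ∀ i, (L * taylor 1 (P i)).natDegree ≤ D + ℓ := fun i => by
    refine le_trans natDegree_mul_le ?_
    have := hT _ (hP i)
    omega
  have h2 : ∀ p : ℚ[X], p.natDegree ≤ D → ∀ m : Fin S, (taylor 1 p * ((X + C 1) * Z m)).natDegree ≤ D + ℓ := by
    intro p hp m
    refine le_trans natDegree_mul_le ?_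
    have h3 := hT _ hp
    have h4 : ((X + C 1 : ℚ[X]) * Z m).natDegree ≤ 1 + (Z m).natDegree := by
      refine le_trans natDegree_mul_le ?_
      rw [natDegree_X_add_C]
    have := hZ m m.isLt
    omega
  have h3 : ∀ p : ℚ[X], p.natDegree ≤ D → ∀ m : Fin S, (taylor 1 p * Z m).natDegree ≤ D + ℓ := by
    intro p hp m
    refine le_trans natDegree_mul_le ?_
    have h3 := hT _ hp
    have := hZ m m.isLt
    omega
  rcases i with a | i
  · simp only [htau, Sum.elim_inl]
    refine le_trans (natDegree_sub_le _ _) (max_le (le_trans (natDegree_add_le _ _) (max_le (h1 _) ?_)) ?_)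
    · exact natDegree_sum_le_of_forall_le _ _ fun m _ => h2 _ (ext2_natDegree P hP _ m) m
    · exact natDegree_sum_le_of_forall_le _ _ fun m _ => h3 _ (prev2_natDegree P hP _ m) m
  · simp only [htau, Sum.elim_inr]
    exact h1 _

theorem htau_natDegree (D ℓ : ℕ) (hL : L.natDegree ≤ ℓ) (hZ : ∀ m < S, (Z m).natDegree + 1 ≤ ℓ)
    (P : Jx A S → ℚ[X]) (hP : ∀ i, (P i).natDegree ≤ D) (j : ℕ) (i : Jx A S) :
    ((htau A S L Z)^[j] P i).natDegree ≤ D + j * ℓ := by
  induction j generalizing i with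
  | zero =>
    rw [zero_mul, add_zero]
    exact hP i
  | succ j ih =>
    rw [Function.iterate_succ_apply', add_mul, one_mul, ← add_assoc]
    exact hTau_deg A S L Z (D + j * ℓ) ℓ hL hZ _ ih i

theorem toL_ext2 (P : Jx A S → ℚ[X]) (a : ℕ) (m : Fin S) :
    ext2 (toL P) a m = algebraMap ℚ[X] (RatFunc ℚ) (ext2 P a m) :=
  ext2_map (algebraMap ℚ[X] (RatFunc ℚ)).toAddMonoidHom P a m

theorem toL_prev2 (P : Jx A S → ℚ[X]) (a : ℕ) (m : Fin S) :
    prev2 (toL P) a m = algebraMap ℚ[X] (RatFunc ℚ) (prev2 P a m) :=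
  prev2_map (algebraMap ℚ[X] (RatFunc ℚ)).toAddMonoidHom P a m

theorem toL_tau (hL : L ≠ 0) (P : Jx A S → ℚ[X]) :
    toL (htau A S L Z P) = algebraMap ℚ[X] (RatFunc ℚ) L • hPhi A S L Z (toL P) := by
  have hL' : algebraMap ℚ[X] (RatFunc ℚ) L ≠ 0 := by
    rw [Ne, FaithfulSMul.algebraMap_eq_zero_iff]
    exact hL
  have hg : ∀ (p : ℚ[X]) (z : RatFunc ℚ), algebraMap ℚ[X] (RatFunc ℚ) L * (z * qK L p) =
      z * algebraMap ℚ[X] (RatFunc ℚ) p := by
    intro p z
    unfold qK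
    field_simp
  funext i
  rw [Pi.smul_apply, smul_eq_mul]
  rcases i with a | i
  · simp only [hPhi, Sum.elim_inl, toL_ext2, toL_prev2]
    simp only [toL, htau, Sum.elim_inl, map_add, map_sub, map_sum, sh_algebraMap,
      mul_add, mul_sub, Finset.mul_sum, hg]
    simp only [map_mul, map_add]
  · simp only [toL, htau, hPhi, Sum.elim_inr, map_mul, sh_algebraMap]

theorem hPhi_add (w w' : Jx A S → RatFunc ℚ) :
    hPhi A S L Z (w + w') = hPhi A S L Z w + hPhi A S L Z w' := by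
  funext i
  rcases i with a | i
  · simp only [hPhi, Pi.add_apply, Sum.elim_inl, map_add, ext2_add, prev2_add, add_mul,
      Finset.sum_add_distrib]
    ring
  · simp only [hPhi, Pi.add_apply, Sum.elim_inr, map_add]

theorem hPhi_smul (c : RatFunc ℚ) (w : Jx A S → RatFunc ℚ) :
    hPhi A S L Z (c • w) = sh c • hPhi A S L Z w := by
  funext i
  rcases i with a | i
  · simp only [hPhi, Pi.smul_apply, smul_eq_mul, Sum.elim_inl, map_mul, ext2_smul, prev2_smul, mul_add,
      mul_sub, Finset.mul_sum, mul_assoc]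
  · simp only [hPhi, Pi.smul_apply, smul_eq_mul, Sum.elim_inr, map_mul]

theorem hPhi_zero : hPhi A S L Z 0 = 0 := by
  have h := hPhi_smul A S L Z 0 0
  rw [zero_smul, map_zero, zero_smul] at h
  exact h

/-- `Φ` of a combination -/
theorem hPhi_sum (k : ℕ) (c : Fin k → RatFunc ℚ) (r : Fin k → Jx A S → RatFunc ℚ) :
    hPhi A S L Z (∑ j, c j • r j) = ∑ j, sh (c j) • hPhi A S L Z (r j) := by
  classical
  have : ∀ s : Finset (Fin k), hPhi A S L Z (∑ j ∈ s, c j • r j) = ∑ j ∈ s, sh (c j) • hPhi A S L Z (r j) := by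
    intro s
    induction s using Finset.induction_on with
    | empty => simp [hPhi_zero]
    | insert a s ha ih => rw [Finset.sum_insert ha, Finset.sum_insert ha, hPhi_add, hPhi_smul, ih]
  exact this _

/-- minimal support: if `Φ` acts as the shift on the coordinates in `I`, then a `Φ`-stable subspace containing a non-zero
vector with a non-zero coordinate in `I` (for every non-zero vector, and with the other coordinates controlled) has one all
whose `I`-coordinates are constant. -/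
theorem min_support {κ ι : Type*} [Fintype κ] (e : κ → ι) (Φ : (ι → RatFunc ℚ) → (ι → RatFunc ℚ))
    (hΦ : ∀ w k, Φ w (e k) = sh (w (e k))) (W : Submodule (RatFunc ℚ) (ι → RatFunc ℚ)) (hst : ∀ w ∈ W, Φ w ∈ W)
    (Q : (ι → RatFunc ℚ) → Prop) (hQ : ∀ w, Q w → ∀ c : RatFunc ℚ, Q (c • w))
    (hQ2 : ∀ w, Q w → Q (Φ w - w)) (w0 : ι → RatFunc ℚ) (hw0 : w0 ∈ W) (hne0 : w0 ≠ 0) (hQ0 : Q w0)
    (hex : ∀ w ∈ W, Q w → w ≠ 0 → ∃ k, w (e k) ≠ 0) :
    ∃ v ∈ W, Q v ∧ Φ v = v ∧ ∃ k0, v (e k0) = 1 := by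
  classical
  have hne : ∃ k : ℕ, ∃ w ∈ W, w ≠ 0 ∧ Q w ∧
      (Finset.univ.filter (fun d : κ => w (e d) ≠ 0)).card = k :=
    ⟨_, w0, hw0, hne0, hQ0, rfl⟩
  obtain ⟨w, hw, hwne, hQw, hk⟩ := Nat.find_spec hne
  have hmin : ∀ u ∈ W, u ≠ 0 → Q u → (Finset.univ.filter (fun d : κ => w (e d) ≠ 0)).card ≤
      (Finset.univ.filter (fun d : κ => u (e d) ≠ 0)).card := by
    intro u hu hu0 hQu
    rw [hk]
    exact Nat.find_min' hne ⟨u, hu, hu0, hQu, rfl⟩
  obtain ⟨d0, hd0⟩ := hex w hw hQw hwne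
  obtain ⟨v, hv⟩ : ∃ v, v = (w (e d0))⁻¹ • w := ⟨_, rfl⟩
  have hvW : v ∈ W := by rw [hv]; exact W.smul_mem _ hw
  have hQv : Q v := by rw [hv]; exact hQ w hQw _
  have hv1 : v (e d0) = 1 := by
    rw [hv, Pi.smul_apply, smul_eq_mul, inv_mul_cancel₀ hd0]
  have hvz : ∀ d, w (e d) = 0 → v (e d) = 0 := by
    intro d hd
    rw [hv, Pi.smul_apply, smul_eq_mul, hd, mul_zero]
  have huW : Φ v - v ∈ W := W.sub_mem (hst v hvW) hvW
  have hu0 : Φ v - v = 0 := by
    by_contra hne0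
    have h3 := hmin _ huW hne0 (hQ2 v hQv)
    have h4 : (Finset.univ.filter (fun d : κ => (Φ v - v) (e d) ≠ 0)).card <
        (Finset.univ.filter (fun d : κ => w (e d) ≠ 0)).card := by
      refine Finset.card_lt_card (Finset.ssubset_iff_subset_ne.2 ⟨fun d hd => ?_, fun he => ?_⟩)
      · rw [Finset.mem_filter] at hd ⊢
        refine ⟨Finset.mem_univ _, fun h5 => hd.2 ?_⟩
        rw [Pi.sub_apply, hΦ, hvz d h5, map_zero, sub_zero]
      · have h5 : d0 ∈ Finset.univ.filter (fun d : κ => w (e d) ≠ 0) :=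
          Finset.mem_filter.2 ⟨Finset.mem_univ _, hd0⟩
        rw [← he, Finset.mem_filter] at h5
        apply h5.2
        rw [Pi.sub_apply, hΦ, hv1, map_one, sub_self]
    omega
  exact ⟨v, hvW, hQv, sub_eq_zero.1 hu0, d0, hv1⟩

/-- case 2 is impossible -/
private theorem hst_case2 (hpole : PoleHyp S L (fun m => (X + C 1) * Z m))
    (W : Submodule (RatFunc ℚ) (Jx A S → RatFunc ℚ)) (hW : W ≠ ⊥)
    (hst : ∀ w ∈ W, hPhi A S L Z w ∈ W)
    (h2 : ∀ w ∈ W, w ≠ 0 → ∃ i : Fin A × Fin S, w (Sum.inr i) ≠ 0) : False := by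
  classical
  obtain ⟨w0, hw0, hne0⟩ := (Submodule.ne_bot_iff W).1 hW
  obtain ⟨v, hvW, -, hv, i0, hi0⟩ := min_support (fun i : Fin A × Fin S => (Sum.inr i : Jx A S))
    (hPhi A S L Z) (fun _ _ => rfl) W hst (fun _ => True) (fun _ _ _ => trivial) (fun _ _ => trivial)
    w0 hw0 hne0 trivial (fun w hw _ hne => h2 w hw hne)
  have hconst : ∀ i : Fin A × Fin S, ∃ c : ℚ, v (Sum.inr i) = algebraMap ℚ[X] (RatFunc ℚ) (C c) := by
    intro i
    apply sh_const
    exact congrFun hv (Sum.inr i)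
  choose c hc using hconst
  -- all `c (a, m)` vanish, by induction on `a`
  have hzero : ∀ a : ℕ, ∀ ha : a < A, ∀ m : Fin S, c (⟨a, ha⟩, m) = 0 := by
    intro a
    induction a using Nat.strong_induction_on with
    | _ a ih =>
      intro ha
      have hprev : ∀ m : Fin S, prev2 v a m = 0 := by
        intro m
        unfold prev2 ext2
        split_ifs with h3 h4
        · rfl
        · rw [hc, ih (a - 1) (by omega) h4 m, C_0, map_zero]
        · rfl
      have hext : ∀ m : Fin S, ext2 v a m = algebraMap ℚ[X] (RatFunc ℚ) (C (c (⟨a, ha⟩, m))) := by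
        intro m
        unfold ext2
        rw [dif_pos ha, hc]
      have h3 := congrFun hv (Sum.inl ⟨a, by omega⟩)
      simp only [hPhi, Sum.elim_inl, hprev, hext, map_zero, zero_mul, Finset.sum_const_zero, sub_zero,
        sh_algebraMap, taylor_C] at h3
      obtain ⟨c', hc'⟩ : ∃ c' : ℕ → ℚ, ∀ m : Fin S, c' m = c (⟨a, ha⟩, m) :=
        ⟨fun m => if h : m < S then c (⟨a, ha⟩, ⟨m, h⟩) else 0, fun m => by simp⟩
      have hg : sh (-v (Sum.inl ⟨a, by omega⟩)) - (-v (Sum.inl ⟨a, by omega⟩)) =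
          ∑ m ∈ Finset.range S, algebraMap ℚ[X] (RatFunc ℚ) (C (c' m)) * qK L ((X + C 1) * Z m) := by
        rw [Finset.sum_range]
        have h4 : ∑ m : Fin S, algebraMap ℚ[X] (RatFunc ℚ) (C (c' m)) * qK L ((X + C 1) * Z m) =
            ∑ m : Fin S, algebraMap ℚ[X] (RatFunc ℚ) (C (c (⟨a, ha⟩, m))) * qK L ((X + C 1) * Z m) :=
          Finset.sum_congr rfl fun m _ => by rw [hc']
        rw [h4, map_neg]
        linear_combination -h3
      have ht := hpole c' _ hg
      intro m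
      rw [← hc']
      exact ht m m.isLt
  have h5 := hc i0
  change v (Sum.inr i0) = 1 at hi0
  obtain ⟨⟨a, ha⟩, m⟩ := i0
  rw [hi0, hzero a ha m, C_0, map_zero] at h5
  exact one_ne_zero h5

theorem hstable (hpole : PoleHyp S L (fun m => (X + C 1) * Z m))
    (W : Submodule (RatFunc ℚ) (Jx A S → RatFunc ℚ)) (hW : W ≠ ⊥)
    (hst : ∀ w ∈ W, hPhi A S L Z w ∈ W) :
    ∃ c : Fin (A + 1) → ℚ, c ≠ 0 ∧
      toL (A := A) (S := S) (Sum.elim (fun a => C (c a)) (fun _ => 0)) ∈ W := by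
  classical
  by_cases h2 : ∀ w ∈ W, w ≠ 0 → ∃ i : Fin A × Fin S, w (Sum.inr i) ≠ 0
  · exact (hst_case2 A S L Z hpole W hW hst h2).elim
  push Not at h2
  obtain ⟨w0, hw0, hne0, hr0⟩ := h2
  have hzext : ∀ w : Jx A S → RatFunc ℚ, (∀ i, w (Sum.inr i) = 0) → ∀ (a : ℕ) (m : Fin S), ext2 w a m = 0 := by
    intro w hw a m
    unfold ext2
    split_ifs
    · exact hw _
    · rfl
  have hzprev : ∀ w : Jx A S → RatFunc ℚ, (∀ i, w (Sum.inr i) = 0) → ∀ (a : ℕ) (m : Fin S), prev2 w a m = 0 := by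
    intro w hw a m
    unfold prev2
    split_ifs
    · rfl
    · exact hzext w hw _ m
  -- on vectors without `inr`-coordinates `Φ` is the shift; work with the subspace `W ⊓ {inr = 0}`
  set W' : Submodule (RatFunc ℚ) (Jx A S → RatFunc ℚ) :=
    { carrier := {w | w ∈ W ∧ ∀ i, w (Sum.inr i) = 0}
      add_mem' := fun {a b} ha hb => ⟨W.add_mem ha.1 hb.1, fun i => by
        rw [Pi.add_apply, ha.2, hb.2, add_zero]⟩
      zero_mem' := ⟨W.zero_mem, fun i => rfl⟩
      smul_mem' := fun c a ha => ⟨W.smul_mem c ha.1, fun i => by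
        rw [Pi.smul_apply, ha.2, smul_zero]⟩ } with hW'
  have hst' : ∀ w ∈ W', (fun i => sh (w i)) ∈ W' := by
    intro w hw
    have h3 : (fun i => sh (w i)) = hPhi A S L Z w := by
      funext i
      rcases i with a | i
      · simp only [hPhi, Sum.elim_inl, hzext w hw.2, hzprev w hw.2, map_zero, zero_mul,
          Finset.sum_const_zero, sub_zero, add_zero]
      · rfl
    refine ⟨?_, fun i => ?_⟩
    · rw [h3]
      exact hst w hw.1
    · show sh (w (Sum.inr i)) = 0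
      rw [hw.2, map_zero]
  obtain ⟨v, hvW, -, hv, a0, ha0⟩ := min_support (fun a : Fin (A + 1) => (Sum.inl a : Jx A S))
    (fun w i => sh (w i)) (fun _ _ => rfl) W' hst' (fun _ => True) (fun _ _ _ => trivial) (fun _ _ => trivial)
    w0 ⟨hw0, hr0⟩ hne0 trivial (fun w hw _ hne => by
      by_contra hcon
      push Not at hcon
      apply hne
      funext i
      rcases i with a | i
      · exact hcon a
      · exact hw.2 i)
  have hconst : ∀ a : Fin (A + 1), ∃ c : ℚ, v (Sum.inl a) = algebraMap ℚ[X] (RatFunc ℚ) (C c) := by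
    intro a
    apply sh_const
    exact congrFun hv (Sum.inl a)
  choose c hc using hconst
  refine ⟨c, ?_, ?_⟩
  · intro h
    have h3 := hc a0
    change v (Sum.inl a0) = 1 at ha0
    rw [ha0, h, Pi.zero_apply, C_0, map_zero] at h3
    exact one_ne_zero h3
  · have h3 : toL (A := A) (S := S) (Sum.elim (fun a => C (c a)) (fun _ => 0)) = v := by
      funext i
      rcases i with a | i
      · simp only [toL, Sum.elim_inl]
        exact (hc a).symm
      · simp only [toL, Sum.elim_inr, map_zero]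
        exact (hvW.2 i).symm
    rw [h3]
    exact hvW.1

theorem GF_smul (h : ℕ → ℕ → PowerSeries ℚ) (n : ℕ) (g : ℚ[X]) (P : Jx A S → ℚ[X]) :
    GF A S h n (fun i => g * P i) = ((taylor (n : ℚ) g : ℚ[X]) : PowerSeries ℚ) * GF A S h n P := by
  unfold GF
  simp only [taylor_mul, Polynomial.coe_mul, mul_add, Finset.mul_sum, mul_assoc]

theorem GF_add (h : ℕ → ℕ → PowerSeries ℚ) (n : ℕ) (P Q : Jx A S → ℚ[X]) :
    GF A S h n (fun i => P i + Q i) = GF A S h n P + GF A S h n Q := by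
  unfold GF
  simp only [map_add, Polynomial.coe_add, add_mul, Finset.sum_add_distrib]
  ring

theorem GF_zero (h : ℕ → ℕ → PowerSeries ℚ) (n : ℕ) : GF A S h n (fun _ => 0) = 0 := by
  unfold GF
  simp

theorem GF_sum (h : ℕ → ℕ → PowerSeries ℚ) (n : ℕ) {ι : Type*} (s : Finset ι) (P : ι → Jx A S → ℚ[X]) :
    GF A S h n (fun i => ∑ j ∈ s, P j i) = ∑ j ∈ s, GF A S h n (P j) := by
  classical
  induction s using Finset.induction_on with
  | empty => simpa using GF_zero A S h n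
  | insert a s ha ih =>
    rw [Finset.sum_insert ha, ← ih, ← GF_add]
    congr 1
    funext i
    rw [Finset.sum_insert ha]

/-- a non-zero polynomial of degree `≤ A` has order `≤ A` -/
theorem dvd_of_mul_poly (f : PowerSeries ℚ) (q : ℚ[X]) (hq : q ≠ 0) (A t : ℕ) (hd : q.natDegree ≤ A)
    (h : PowerSeries.X ^ t ∣ f * (q : PowerSeries ℚ)) : PowerSeries.X ^ (t - A) ∣ f := by
  by_cases hf : f = 0
  · rw [hf]
    exact dvd_zero _
  rcases Nat.le_total t A with ht | ht
  · rw [Nat.sub_eq_zero_of_le ht, pow_zero]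
    exact one_dvd f
  have hqs : (q : PowerSeries ℚ) ≠ 0 := by
    intro h0
    exact hq (Polynomial.coe_eq_zero_iff.1 h0)
  have h1 : (t : ℕ∞) ≤ (f * (q : PowerSeries ℚ)).order :=
    PowerSeries.nat_le_order _ _ (fun i hi => PowerSeries.X_pow_dvd_iff.1 h i hi)
  rw [PowerSeries.order_mul] at h1
  have h2 : (q : PowerSeries ℚ).order ≤ (A : ℕ∞) := by
    refine (PowerSeries.order_le q.natDegree ?_).trans (by exact_mod_cast hd)
    rw [Polynomial.coeff_coe]
    exact leadingCoeff_ne_zero.2 hq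
  have h3 : f.order ≠ ⊤ := fun h => hf (PowerSeries.order_eq_top.1 h)
  have h4 : (q : PowerSeries ℚ).order ≠ ⊤ := fun h => hqs (PowerSeries.order_eq_top.1 h)
  rw [PowerSeries.X_pow_dvd_iff]
  intro i hi
  apply PowerSeries.coeff_of_lt_order
  lift f.order to ℕ using h3 with a
  lift (q : PowerSeries ℚ).order to ℕ using h4 with b
  norm_cast at *
  omega

/-- the starting vector -/
noncomputable def hrho (A S : ℕ) (P : ℕ → ℕ → ℚ[X]) : Jx A S → ℚ[X] :=
  Sum.elim (fun _ => 0) (fun i => P i.1 i.2)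

theorem GF_hrho (h : ℕ → ℕ → PowerSeries ℚ) (P : ℕ → ℕ → ℚ[X]) (n : ℕ) :
    GF A S h n (hrho A S P)
      = ∑ a ∈ Finset.range A, ∑ m ∈ Finset.range S,
        ((taylor (n : ℚ) (P a m) : ℚ[X]) : PowerSeries ℚ) * PowerSeries.X ^ a * h m n := by
  rw [Finset.sum_range]
  unfold GF hrho
  simp only [Sum.elim_inl, Sum.elim_inr, map_zero, Polynomial.coe_zero, zero_mul, Finset.sum_const_zero, zero_add]
  refine Finset.sum_congr rfl fun a _ => ?_
  rw [Finset.sum_range]

/-- THE ZERO ESTIMATE, general form. -/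
theorem hzero (N T D ℓ : ℕ) (hL : L ≠ 0) (hLd : L.natDegree ≤ ℓ) (hZ : ∀ m < S, (Z m).natDegree + 1 ≤ ℓ)
    (hpole : PoleHyp S L (fun m => (X + C 1) * Z m)) (h : ℕ → ℕ → PowerSeries ℚ) (hv : hHv S L Z h)
    (P : ℕ → ℕ → ℚ[X]) (hdeg : ∀ a < A, ∀ m < S, (P a m).natDegree < D)
    (hne : ∃ a < A, ∃ m < S, P a m ≠ 0)
    (hvan : ∀ n < N, PowerSeries.X ^ T ∣ ∑ a ∈ Finset.range A, ∑ m ∈ Finset.range S,
        ((taylor (n : ℚ) (P a m) : ℚ[X]) : PowerSeries ℚ) * PowerSeries.X ^ a * h m n) :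
    (N - (A * S + A + 1)) * (T - A) ≤ (A * S + A + 1) * D + (A * S + A + 1) ^ 2 * ℓ := by
  set R := A * S + A + 1 with hR
  set ρ : ℕ → Jx A S → ℚ[X] := fun j => (htau A S L Z)^[j] (hrho A S P) with hρ
  have hρs : ∀ j, ρ (j + 1) = htau A S L Z (ρ j) := fun j => by
    simp only [hρ]; rw [Function.iterate_succ_apply']
  set r : ℕ → Jx A S → RatFunc ℚ := fun j => toL (ρ j) with hr
  have hLK : algebraMap ℚ[X] (RatFunc ℚ) L ≠ 0 := by
    simpa using (map_ne_zero_iff _ (IsFractionRing.injective ℚ[X] (RatFunc ℚ))).2 hL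
  have hrs : ∀ j, r (j + 1) = algebraMap ℚ[X] (RatFunc ℚ) L • hPhi A S L Z (r j) := fun j => by
    simp only [hr]; rw [hρs j, toL_tau A S L Z hL]
  -- the starting vector is non-zero
  have h0 : r 0 ≠ 0 := by
    intro h
    obtain ⟨a, ha, m, hm, hP⟩ := hne
    have h1 := congrFun h (Sum.inr (⟨a, ha⟩, ⟨m, hm⟩))
    simp only [hr, hρ, toL, hrho, Function.iterate_zero, id, Sum.elim_inr, Pi.zero_apply] at h1
    exact hP ((map_eq_zero_iff _ (IsFractionRing.injective ℚ[X] (RatFunc ℚ))).1 h1)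
  obtain ⟨k, hk1, hkR, hli, hdep⟩ := firstDep (K := RatFunc ℚ) r h0
  have hcard : Module.finrank (RatFunc ℚ) (Jx A S → RatFunc ℚ) = R := by
    rw [Module.finrank_fintype_fun_eq_card]
    simp only [Fintype.card_sum, Fintype.card_fin, Fintype.card_prod]
    omega
  rw [hcard] at hkR
  set W : Submodule (RatFunc ℚ) (Jx A S → RatFunc ℚ) :=
    Submodule.span (RatFunc ℚ) (Set.range fun j : Fin k => r j) with hW
  have hWmem : ∀ j, j ≤ k → r j ∈ W := by
    intro j hj
    rcases Nat.lt_or_ge j k with h | h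
    · exact Submodule.subset_span ⟨⟨j, h⟩, rfl⟩
    · have : j = k := le_antisymm hj h
      rw [this]; exact hdep
  have hWne : W ≠ ⊥ := by
    intro h
    apply h0
    have := hWmem 0 (Nat.zero_le _)
    rw [h] at this
    simpa using this
  have hst : ∀ w ∈ W, hPhi A S L Z w ∈ W := by
    intro w hw
    obtain ⟨c, rfl⟩ := (Submodule.mem_span_range_iff_exists_fun (RatFunc ℚ)).1 hw
    rw [hPhi_sum]
    refine Submodule.sum_mem _ fun j _ => Submodule.smul_mem _ _ ?_
    have h2 : hPhi A S L Z (r j) = (algebraMap ℚ[X] (RatFunc ℚ) L)⁻¹ • r (j + 1) := by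
      rw [hrs, smul_smul, inv_mul_cancel₀ hLK, one_smul]
    rw [h2]
    exact Submodule.smul_mem _ _ (hWmem _ j.2)
  obtain ⟨c, hcne, hcW⟩ := hstable A S L Z hpole W hWne hst
  -- degrees
  have hdeg' : ∀ j : Fin k, ∀ i, (ρ j i).natDegree ≤ D + j * ℓ := by
    intro j i
    refine htau_natDegree A S L Z D ℓ hLd hZ (hrho A S P) ?_ j i
    intro i
    rcases i with a | ⟨a, m⟩
    · simp [hrho]
    · simp only [hrho, Sum.elim_inr]
      exact (hdeg a a.isLt m m.isLt).le
  obtain ⟨δ, G, hδ, hδdeg, hG⟩ := cramer k (fun j : Fin k => ρ j) hli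
    (fun j => D + j * ℓ) hdeg' (Sum.elim (fun a => C (c a)) (fun _ => 0)) hcW
  -- vanishing
  have hvan' : ∀ n < N, PowerSeries.X ^ T ∣ GF A S h n (hrho A S P) := by
    intro n hn; rw [GF_hrho]; exact hvan n hn
  -- the special vector
  set q : ℚ[X] := ∑ a : Fin (A + 1), C (c a) * X ^ (a : ℕ) with hq
  have hqne : q ≠ 0 := by
    intro h
    apply hcne
    funext a
    have h1 := congrArg (fun p : ℚ[X] => p.coeff (a : ℕ)) h
    simp only [hq, finsetSum_coeff, coeff_C_mul, coeff_X_pow, coeff_zero] at h1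
    rw [Finset.sum_eq_single a] at h1
    · simpa using h1
    · intro b _ hb
      rw [if_neg (fun h => hb (Fin.ext h.symm)), mul_zero]
    · intro h
      exact absurd (Finset.mem_univ a) h
  have hqd : q.natDegree ≤ A := by
    rw [hq]
    refine natDegree_sum_le_of_forall_le _ _ fun a _ => ?_
    refine (natDegree_C_mul_X_pow_le _ _).trans ?_
    have := a.isLt
    omega
  have hGFw : ∀ n : ℕ, GF A S h n (Sum.elim (fun a => C (c a)) (fun _ => 0)) = ((q : ℚ[X]) : PowerSeries ℚ) := by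
    intro n
    unfold GF
    simp only [Sum.elim_inl, Sum.elim_inr, map_zero, Polynomial.coe_zero, zero_mul, Finset.sum_const_zero,
      add_zero, taylor_C]
    rw [hq]
    have := map_sum (Polynomial.coeToPowerSeries.ringHom (R := ℚ)) (fun a : Fin (A + 1) => C (c a) * X ^ (a : ℕ)) Finset.univ
    simp only [Polynomial.coeToPowerSeries.ringHom_apply] at this
    rw [this]
    refine Finset.sum_congr rfl fun a _ => ?_
    rw [Polynomial.coe_mul, Polynomial.coe_pow, Polynomial.coe_X]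
  have hzero : ∀ n < N - R,
      PowerSeries.X ^ (T - A) ∣ ((taylor (n : ℚ) δ : ℚ[X]) : PowerSeries ℚ) := by
    intro n hn
    refine dvd_of_mul_poly _ q hqne A T hqd ?_
    rw [← hGFw n, ← GF_smul]
    have h3 : (fun i => δ * (Sum.elim (fun a => C (c a)) (fun _ => 0) : Jx A S → ℚ[X]) i) =
        (fun i => ∑ j ∈ Finset.univ, (fun j i => G j * ρ j i) j i) := by
      funext i; exact hG i
    rw [h3, GF_sum]
    refine Finset.dvd_sum fun j _ => ?_
    have h4 : GF A S h n ((fun (j : Fin k) i => G j * ρ j i) j)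
        = ((taylor (n : ℚ) (G j) : ℚ[X]) : PowerSeries ℚ) * GF A S h n (ρ j) := GF_smul A S h n (G j) (ρ j)
    rw [h4]
    refine Dvd.dvd.mul_left ?_ _
    exact GF_iterate A S L Z h hv (hrho A S P) N T hvan' j n (by have := j.2; omega)
  have hcount := count δ hδ (N - R) (T - A) hzero
  refine hcount.trans (hδdeg.trans ?_)
  calc ∑ j : Fin k, (D + (j : ℕ) * ℓ)
      ≤ ∑ _j : Fin k, (D + R * ℓ) := by
        refine Finset.sum_le_sum fun j _ => ?_
        have : (j : ℕ) ≤ R := by have := j.2; omega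
        gcongr
    _ = k * (D + R * ℓ) := by simp
    _ ≤ R * (D + R * ℓ) := by gcongr
    _ = R * D + R ^ 2 * ℓ := by ring

end MP_a3a416_nt.HJ
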